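import Pool.Agent.Lib.MP_6c3d62_pr.Mg.G073

/-!
# The permutation induced on marked points (first returns)
-/

set_option autoImplicit false
set_option linter.unusedSectionVars false

open Finset Equiv

namespace Pool.Agent.Stirring.MU

open Pool.Agent.Stirring

section Def

variable {V : Type*} {ι : Type*}

/-- `τ` is the permutation of the marked points `z` which is given by the first returns of `σ` to
them. -/
def Induced (σ : Perm V) (z : ι → V) (τ : Perm ι) : Prop :=
  ∀ i, ∃ n : ℕ, (σ ^ (n + 1)) (z i) = z (τ i) ∧ ∀ m < n, ∀ j, (σ ^ (m + 1)) (z i) ≠ z j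

theorem Induced.unique {σ : Perm V} {z : ι → V} (hz : Function.Injective z) {τ τ' : Perm ι}
    (h : Induced σ z τ) (h' : Induced σ z τ') : τ = τ' := by
  ext i
  obtain ⟨n, h1, h2⟩ := h i
  obtain ⟨n', h3, h4⟩ := h' i
  have hn : n = n' := by
    rcases lt_trichotomy n n' with hlt | heq | hlt
    · exact absurd h1 (h4 n hlt _)
    · exact heq
    · exact absurd h3 (h2 n' hlt _)
  subst hn
  exact hz (h1.symm.trans h3)

theorem exists_induced [Finite V] [Finite ι] (σ : Perm V) {z : ι → V}
    (hz : Function.Injective z) : ∃ τ, Induced σ z τ := by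
  classical
  have hex : ∀ i, ∃ n : ℕ, ∃ j, (σ ^ (n + 1)) (z i) = z j := by
    intro i
    refine ⟨orderOf σ - 1, i, ?_⟩
    rw [Nat.sub_add_cancel (orderOf_pos σ), pow_orderOf_eq_one]
    rfl
  set N : ι → ℕ := fun i => Nat.find (hex i) with hN
  have h1 : ∀ i, ∃ j, (σ ^ (N i + 1)) (z i) = z j := fun i => Nat.find_spec (hex i)
  have h2 : ∀ i, ∀ m < N i, ∀ j, (σ ^ (m + 1)) (z i) ≠ z j := by
    intro i m hm j hj
    exact Nat.find_min (hex i) hm ⟨j, hj⟩
  choose f hf using h1
  have key : ∀ i i', N i ≤ N i' → f i = f i' → i = i' := by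
    intro i i' hle he
    have h3 : (σ ^ (N i + 1)) (z i) = (σ ^ (N i' + 1)) (z i') := by rw [hf i, hf i', he]
    obtain ⟨m, hm⟩ : ∃ m, N i' = N i + m := ⟨N i' - N i, by omega⟩
    have h4 : (σ ^ (N i + 1)) (z i) = (σ ^ (N i + 1)) ((σ ^ m) (z i')) := by
      rw [h3, ← Perm.mul_apply, ← pow_add]
      congr 2
      omega
    have h5 := (σ ^ (N i + 1)).injective h4
    rcases m with _ | m
    · exact hz (by simpa using h5)
    · exact absurd h5.symm (h2 i' m (by omega) i)
  have hinj : Function.Injective f := by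
    intro i i' he
    rcases le_total (N i) (N i') with h | h
    · exact key i i' h he
    · exact (key i' i h he.symm).symm
  refine ⟨Equiv.ofBijective f (Finite.injective_iff_bijective.mp hinj), fun i => ⟨N i, ?_, h2 i⟩⟩
  exact hf i

end Def

section Fn

variable {V : Type*} {ι : Type*} [Fintype ι] [DecidableEq ι]

open Classical in
/-- A function of the induced permutation. -/
noncomputable def indF (F : Perm ι → ℝ) (z : ι → V) (σ : Perm V) : ℝ :=
  ∑ τ, if Induced σ z τ then F τ else 0

theorem indF_eq {F : Perm ι → ℝ} {z : ι → V} (hz : Function.Injective z) {σ : Perm V}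
    {τ : Perm ι} (h : Induced σ z τ) : indF F z σ = F τ := by
  classical
  unfold indF
  rw [Finset.sum_eq_single τ]
  · rw [if_pos h]
  · intro τ' _ hne
    exact if_neg fun h' => hne (h'.unique hz h)
  · intro h'
    exact absurd (Finset.mem_univ _) h'

variable [Finite V]

theorem indF_nonneg {F : Perm ι → ℝ} (hF : ∀ τ, 0 ≤ F τ) (z : ι → V) (σ : Perm V) :
    0 ≤ indF F z σ := by
  unfold indF
  refine Finset.sum_nonneg fun τ _ => ?_
  split_ifs
  · exact hF τ
  · exact le_rfl

theorem indF_le_one {F : Perm ι → ℝ} (hF : ∀ τ, F τ ≤ 1) {z : ι → V}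
    (hz : Function.Injective z) (σ : Perm V) : indF F z σ ≤ 1 := by
  obtain ⟨τ, h⟩ := exists_induced σ hz
  rw [indF_eq hz h]
  exact hF τ

/-- Two permutations with the same induced permutation. -/
theorem indF_congr {F : Perm ι → ℝ} {z z' : ι → V} {σ σ' : Perm V}
    (h : ∀ τ, Induced σ z τ ↔ Induced σ' z' τ) : indF F z σ = indF F z' σ' := by
  classical
  unfold indF
  exact Finset.sum_congr rfl fun τ _ => by simp only [h τ]

end Fn

end Pool.Agent.Stirring.MU
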