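import Pool.Agent.Lib.MP_6c3d62_pr.MU.Sw
import Pool.Agent.Lib.MP_6c3d62_pr.Mg.G065

/-!
# From the exchanges to the uniform law of the induced permutation; the endgame
-/

set_option autoImplicit false
set_option linter.unusedSectionVars false

open Finset Equiv

namespace Pool.Agent.Stirring.MU

open Pool.Agent.Stirring Pool.Agent.Stirring.TN

theorem indF_swap {V ι : Type*} [Finite V] [DecidableEq V] [Fintype ι] [DecidableEq ι]
    {z : ι → V} (hz : Function.Injective z) (F : Perm ι → ℝ) (i j : ι) (σ : Perm V) :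
    indF F z (σ * swap (z i) (z j)) = indF (fun τ => F (τ * swap i j)) z σ := by
  obtain ⟨τ, h⟩ := exists_induced σ hz
  rw [indF_eq hz h, indF_eq hz (induced_swap hz i j h)]

/-- If a law on `Perm ι` is invariant under every transposition up to `e`, it is uniform up to
`(card ι) e`, in total variation. -/
theorem uniform_of_swaps {ι : Type*} [Fintype ι] [DecidableEq ι] {T : (Perm ι → ℝ) → ℝ} {e : ℝ}
    (he : 0 ≤ e) (hlin : ∀ (F G : Perm ι → ℝ) (r : ℝ), T (fun τ => F τ + r * G τ) = T F + r * T G)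
    (h1 : T (fun _ => 1) = 1)
    (h : ∀ (F : Perm ι → ℝ), (∀ τ, 0 ≤ F τ) → (∀ τ, F τ ≤ 1) → ∀ i j : ι, i ≠ j →
      |T (fun τ => F (τ * swap i j)) - T F| ≤ e)
    {F : Perm ι → ℝ} (hF0 : ∀ τ, 0 ≤ F τ) (hF1 : ∀ τ, F τ ≤ 1) :
    |T F - (∑ τ, F τ) / ((Fintype.card ι).factorial : ℝ)| ≤ Fintype.card ι * e := by
  classical
  -- the constants
  have h0 : T (fun _ => 0) = 0 := by
    have := hlin (fun _ => 1) (fun _ => 1) (-1)
    rw [h1] at this
    have e1 : (fun _ : Perm ι => (1 : ℝ) + -1 * 1) = fun _ => 0 := by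
      funext _
      norm_num
    rw [e1] at this
    rw [this]
    norm_num
  have hc : ∀ r : ℝ, T (fun _ => r) = r := by
    intro r
    have := hlin (fun _ => 0) (fun _ => 1) r
    rw [h1, h0] at this
    have e1 : (fun _ : Perm ι => (0 : ℝ) + r * 1) = fun _ => r := by
      funext _
      ring
    rw [e1] at this
    rw [this]
    ring
  have hsum : ∀ (s : Finset (Perm ι)) (G : Perm ι → Perm ι → ℝ),
      T (fun τ => ∑ p ∈ s, G p τ) = ∑ p ∈ s, T (G p) := by
    intro s G
    induction s using Finset.induction_on with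
    | empty =>
      simp only [Finset.sum_empty]
      exact h0
    | insert a s ha ih =>
      have e1 : (fun τ => ∑ p ∈ insert a s, G p τ) = fun τ => G a τ + 1 * ∑ p ∈ s, G p τ := by
        funext τ
        rw [Finset.sum_insert ha, one_mul]
      rw [e1, hlin (G a) (fun τ => ∑ p ∈ s, G p τ) 1, ih, Finset.sum_insert ha, one_mul]
  -- every permutation
  have key : ∀ (n : ℕ) (p : Perm ι), p.support.card ≤ n → ∀ G : Perm ι → ℝ, (∀ τ, 0 ≤ G τ) →
      (∀ τ, G τ ≤ 1) → |T (fun τ => G (τ * p)) - T G| ≤ p.support.card * e := by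
    intro n
    induction n with
    | zero =>
      intro p hp G _ _
      have h2 : p = 1 := Perm.support_eq_empty_iff.mp (Finset.card_eq_zero.mp (Nat.le_zero.mp hp))
      subst h2
      simp
    | succ n ih =>
      intro p hp G hG0 hG1
      by_cases hp1 : p = 1
      · subst hp1
        simp
      obtain ⟨x, hx⟩ : ∃ x, p x ≠ x := by
        by_contra hcon
        push Not at hcon
        exact hp1 (Equiv.ext hcon)
      set q := swap x (p x) * p with hq
      have hlt : q.support.card < p.support.card := Perm.card_support_swap_mul hx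
      have hpq : p = swap x (p x) * q := by
        rw [hq, ← mul_assoc, swap_mul_self, one_mul]
      have h2 := ih q (by omega) G hG0 hG1
      have h3 := h (fun τ => G (τ * q)) (fun τ => hG0 _) (fun τ => hG1 _) x (p x) hx.symm
      have e1 : (fun τ => G (τ * swap x (p x) * q)) = fun τ => G (τ * p) := by
        funext τ
        rw [mul_assoc, ← hpq]
      rw [e1] at h3
      have h4 : (q.support.card : ℝ) + 1 ≤ p.support.card := by exact_mod_cast hlt
      calc |T (fun τ => G (τ * p)) - T G|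
          ≤ |T (fun τ => G (τ * p)) - T (fun τ => G (τ * q))|
            + |T (fun τ => G (τ * q)) - T G| := abs_sub_le _ _ _
        _ ≤ e + q.support.card * e := add_le_add h3 h2
        _ = (q.support.card + 1) * e := by ring
        _ ≤ p.support.card * e := mul_le_mul_of_nonneg_right h4 he
  have hfac : (0 : ℝ) < ((Fintype.card ι).factorial : ℝ) := by
    exact_mod_cast Nat.factorial_pos _
  have hS : T (fun τ => ∑ p : Perm ι, F (τ * p)) = ∑ p, F p := by
    have e1 : (fun τ => ∑ p : Perm ι, F (τ * p)) = fun _ => ∑ p, F p := by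
      funext τ
      exact Equiv.sum_comp (Equiv.mulLeft τ) F
    rw [e1, hc]
  have h5 := hsum univ fun p τ => F (τ * p)
  rw [hS] at h5
  have h6 : ((Fintype.card ι).factorial : ℝ) * T F - ∑ p, F p =
      ∑ p : Perm ι, (T F - T fun τ => F (τ * p)) := by
    rw [Finset.sum_sub_distrib, ← h5, Finset.sum_const, Finset.card_univ, Fintype.card_perm,
      nsmul_eq_mul]
  have h7 : |∑ p : Perm ι, (T F - T fun τ => F (τ * p))| ≤
      ((Fintype.card ι).factorial : ℝ) * (Fintype.card ι * e) := by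
    refine (Finset.abs_sum_le_sum_abs _ _).trans ?_
    have h8 : ∀ p ∈ (univ : Finset (Perm ι)), |T F - T fun τ => F (τ * p)| ≤
        Fintype.card ι * e := by
      intro p _
      rw [abs_sub_comm]
      refine (key _ p le_rfl F hF0 hF1).trans (mul_le_mul_of_nonneg_right ?_ he)
      exact_mod_cast Finset.card_le_univ _
    refine (Finset.sum_le_sum h8).trans (le_of_eq ?_)
    rw [Finset.sum_const, Finset.card_univ, Fintype.card_perm, nsmul_eq_mul]
  have h9 : T F - (∑ τ, F τ) / ((Fintype.card ι).factorial : ℝ) =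
      (((Fintype.card ι).factorial : ℝ) * T F - ∑ p, F p) / ((Fintype.card ι).factorial : ℝ) := by
    field_simp
  rw [h9, abs_div, abs_of_pos hfac, div_le_iff₀ hfac, h6]
  linarith

/-! ### Linearity -/

theorem indF_lin {V ι : Type*} [Finite V] [Fintype ι] [DecidableEq ι] {z : ι → V}
    (hz : Function.Injective z) (F G : Perm ι → ℝ) (r : ℝ) (σ : Perm V) :
    indF (fun τ => F τ + r * G τ) z σ = indF F z σ + r * indF G z σ := by
  obtain ⟨τ, h⟩ := exists_induced σ hz
  rw [indF_eq hz h, indF_eq hz h, indF_eq hz h]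

theorem indF_const {V ι : Type*} [Finite V] [Fintype ι] [DecidableEq ι] {z : ι → V}
    (hz : Function.Injective z) (r : ℝ) (σ : Perm V) :
    indF (fun _ => r) z σ = r := by
  obtain ⟨τ, h⟩ := exists_induced σ hz
  rw [indF_eq hz h]

/-! ### The last two nodes -/

section End

variable {Q : Type} [Fintype Q] [DecidableEq Q] {Y : Type} [Fintype Y] [DecidableEq Y]
variable {ι : Type*} [Fintype ι] [DecidableEq ι]

/-- As `TN.two_last`. -/
theorem two_last_ind {c : Q → Option Y} {π : Y → Perm Q → ℝ} {y y' : Y} (hyy : y ≠ y')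
    (hu : UnifAt c y (π y)) (hu' : UnifAt c y' (π y')) {z : ι → Q} (hzi : Function.Injective z)
    {i j : ι} (hi : c (z i) = some y) (hj : c (z j) = some y') {ρ : ℝ} (hρ : 0 < ρ) {Θ : Perm Q}
    (h : PL.ResLe (PL.netA Θ c {y, y'}) ρ y y') {F : Perm ι → ℝ} (hF0 : ∀ τ, 0 ≤ F τ)
    (hF1 : ∀ τ, F τ ≤ 1) :
    |PL.JL π (fun η => indF F z (η * swap (z i) (z j)) - indF F z η) [y, y'] Θ| ≤
      4 * Fintype.card ι * ρ := by
  have h1 := two_node_avg_ind (fib_disjoint hyy) (fr_wir Θ c y y') (A := 1 / (2 * ρ))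
    (by positivity) (nstr_of_res hyy hρ h) hzi (i := i) (j := j) (mem_fib.mpr hi)
    (mem_fib.mpr hj) hF0 hF1
  have h2 : PL.JL π (fun η => indF F z (η * swap (z i) (z j)) - indF F z η) [y, y'] Θ =
      (∑ σ1 ∈ permsOn (fib c y), ∑ σ2 ∈ permsOn (fib c y'),
        (indF F z (Θ * σ1 * σ2 * swap (z i) (z j)) - indF F z (Θ * σ1 * σ2))) /
      (((fib c y).card.factorial : ℝ) * ((fib c y').card.factorial : ℝ)) := by
    show ∑ σ, π y σ * (∑ σ', π y' σ' *
      (indF F z (Θ * σ * σ' * swap (z i) (z j)) - indF F z (Θ * σ * σ'))) = _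
    rw [sum_unif hu]
    simp only [sum_unif hu']
    rw [← Finset.sum_div, div_div, mul_comm ((fib c y').card.factorial : ℝ)]
  rw [h2]
  refine h1.trans (le_of_eq ?_)
  field_simp
  ring

/-- As `TN.endgame`. -/
theorem endgame_ind {c : Q → Option Y} {N : ℕ} {π : Y → Perm Q → ℝ} {l : List Y}
    {Θ : Perm Q} (hl : l.Nodup) (hπ : ∀ y ∈ l, PL.Dens c N 4 y (π y)) {m : ι → Y}
    (hm : Function.Injective m) (hml : ∀ a, m a ∈ l) (hu : ∀ a, UnifAt c (m a) (π (m a)))
    {z : ι → Q} (hz : ∀ a, c (z a) = some (m a)) {ρ δ : ℝ} (hρ : 0 < ρ) (hδ : 0 ≤ δ)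
    (hbad : ∀ a b, a ≠ b → ∀ l' : List Y, l'.Nodup →
      (∀ y, y ∈ l' ↔ y ∈ l ∧ y ∉ ({m a, m b} : Finset Y)) →
      PL.JL π (fun Θ' => open Classical in
        if ∀ y ∈ ({m a, m b} : Finset Y), ∀ z ∈ ({m a, m b} : Finset Y),
          PL.ResLe (PL.netA Θ' c {m a, m b}) ρ y z then 0 else 1) l' Θ ≤ δ)
    {F : Perm ι → ℝ} (hF0 : ∀ τ, 0 ≤ F τ) (hF1 : ∀ τ, F τ ≤ 1) :
    |PL.JL π (indF F z) l Θ - (∑ τ, F τ) / ((Fintype.card ι).factorial : ℝ)| ≤
      (Fintype.card ι : ℝ) * (4 * Fintype.card ι * ρ + δ) := by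
  classical
  have hzi : Function.Injective z := by
    intro a b h
    have h1 := hz a
    rw [h, hz b] at h1
    exact hm (Option.some.inj h1).symm
  refine uniform_of_swaps (T := fun G => PL.JL π (indF G z) l Θ)
    (e := 4 * Fintype.card ι * ρ + δ) (by positivity) ?_ ?_ ?_ hF0 hF1
  · intro G H r
    show PL.JL π (indF (fun τ => G τ + r * H τ) z) l Θ =
      PL.JL π (indF G z) l Θ + r * PL.JL π (indF H z) l Θ
    rw [← JL_smul, ← JL_add]
    congr 1
    funext σ
    exact indF_lin hzi G H r σ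
  · show PL.JL π (indF (fun _ => 1) z) l Θ = 1
    have e1 : indF (fun _ : Perm ι => (1 : ℝ)) z = fun _ => 1 := by
      funext σ
      exact indF_const hzi 1 σ
    rw [e1]
    exact JL_const 1 hπ Θ
  intro G hG0 hG1 a b hab
  have hne : m a ≠ m b := fun h => hab (hm h)
  show |PL.JL π (indF (fun τ => G (τ * swap a b)) z) l Θ - PL.JL π (indF G z) l Θ| ≤
    4 * Fintype.card ι * ρ + δ
  have e1 : indF (fun τ => G (τ * swap a b)) z = fun η => indF G z (η * swap (z a) (z b)) := by
    funext η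
    exact (indF_swap hzi G a b η).symm
  rw [e1, ← JL_sub]
  -- the two nodes last
  set l' := (l.erase (m a)).erase (m b) with hl'
  have hnd : (l.erase (m a)).Nodup := hl.erase _
  have hmem : ∀ y, y ∈ l' ↔ y ∈ l ∧ y ∉ ({m a, m b} : Finset Y) := by
    intro y
    rw [hl', hnd.mem_erase_iff, hl.mem_erase_iff, Finset.mem_insert, Finset.mem_singleton, not_or]
    tauto
  have hperm : l.Perm (l' ++ [m a, m b]) := by
    have h1 : l.Perm (m a :: l.erase (m a)) := List.perm_cons_erase (hml a)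
    have h2 : (l.erase (m a)).Perm (m b :: l') :=
      List.perm_cons_erase ((hl.mem_erase_iff).mpr ⟨fun h => hne h.symm, hml b⟩)
    refine h1.trans ((List.Perm.cons _ h2).trans ?_)
    have h3 : (m a :: m b :: l') = [m a, m b] ++ l' := rfl
    rw [h3]
    exact List.perm_append_comm
  rw [PL.JL_perm _ hl hπ hperm Θ, JL_append]
  have hπ' : ∀ y ∈ l', PL.Dens c N 4 y (π y) := fun y hy => hπ y ((hmem y).mp hy).1
  have hπ2 : ∀ y ∈ [m a, m b], PL.Dens c N 4 y (π y) := by
    intro y hy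
    rcases List.mem_cons.mp hy with h | h
    · rw [h]
      exact hπ _ (hml a)
    · rw [List.mem_singleton.mp h]
      exact hπ _ (hml b)
  have h1 : ∀ Θ' : Perm Q,
      |PL.JL π (fun η => indF G z (η * swap (z a) (z b)) - indF G z η) [m a, m b] Θ'| ≤
      4 * Fintype.card ι * ρ + (if ∀ y ∈ ({m a, m b} : Finset Y), ∀ z ∈ ({m a, m b} : Finset Y),
          PL.ResLe (PL.netA Θ' c {m a, m b}) ρ y z then (0 : ℝ) else 1) := by
    intro Θ'
    split_ifs with h
    · rw [add_zero]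
      exact two_last_ind hne (hu a) (hu b) hzi (hz a) (hz b) hρ
        (h _ (Finset.mem_insert_self _ _) _ (Finset.mem_insert_of_mem (Finset.mem_singleton_self _)))
        hG0 hG1
    · have h2 := JL_abs_le (G := fun η => indF G z (η * swap (z a) (z b)) - indF G z η)
        (H := fun _ => 1) (fun η => by
          rw [abs_le]
          have e1 := indF_nonneg hG0 z (η * swap (z a) (z b))
          have e2 := indF_le_one hG1 hzi (η * swap (z a) (z b))
          have e3 := indF_nonneg hG0 z η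
          have e4 := indF_le_one hG1 hzi η
          constructor <;> linarith) hπ2 Θ'
      rw [JL_const 1 hπ2] at h2
      have : (0 : ℝ) ≤ 4 * Fintype.card ι * ρ := by positivity
      linarith
  refine (JL_abs_le h1 hπ' Θ).trans ?_
  rw [JL_add, JL_const _ hπ']
  have h2 := hbad a b hab l' (hnd.erase _) hmem
  refine add_le_add le_rfl (le_trans (le_of_eq ?_) h2)
  congr

end End

/-- As `TN.endgame_freeze`. -/
theorem endgame_freeze_ind (C1 : ℝ) (hC1 : 1 ≤ C1) : ∃ C2 : ℝ, 1 ≤ C2 ∧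
    ∀ (Q : Type) [Fintype Q] [DecidableEq Q] (Y : Type) [Fintype Y] [DecidableEq Y]
      (ι : Type) [Fintype ι] [DecidableEq ι]
      (c : Q → Option Y) (N : ℕ) (ρ κ : ℝ) (A0 : Finset Y) (π : Y → Perm Q → ℝ) (l : List Y)
      (Θ : Perm Q) (m : ι → Y) (z : ι → Q),
    0 < ρ → (N : ℝ) * ρ ≤ C1 → 1 ≤ κ → C2 * κ ^ 2 ≤ N →
    C2 * κ * Real.log (A0.card) ≤ Real.sqrt (Real.sqrt N) →
    (A0.card : ℝ) ^ 6 * N ≤ Real.exp κ →
    (∀ y ∈ A0, (univ.filter fun w => c w = some y).card = N) →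
    (∀ q y, c q = some y → y ∈ A0) →
    l.Nodup → (∀ y, y ∈ l ↔ y ∈ A0) → (∀ y ∈ l, PL.Dens c N 4 y (π y)) →
    (∀ y ∈ A0, ∀ z ∈ A0, PL.ResLe (PL.netA Θ c A0) (ρ / 2) y z) →
    Function.Injective m → (∀ a, UnifAt c (m a) (π (m a))) → (∀ a, c (z a) = some (m a)) →
    ∀ F : Perm ι → ℝ, (∀ τ, 0 ≤ F τ) → (∀ τ, F τ ≤ 1) →
      |PL.JL π (indF F z) l Θ - (∑ τ, F τ) / ((Fintype.card ι).factorial : ℝ)| ≤
        (Fintype.card ι : ℝ) *
          (4 * Fintype.card ι * ρ + C2 * (A0.card : ℝ) ^ 2 * Real.exp (-(κ / 2))) := by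
  obtain ⟨C2, hC2, hfr⟩ := PL.freeze C1 hC1
  refine ⟨C2, hC2, ?_⟩
  intro Q _ _ Y _ _ ι _ _ c N ρ κ A0 π l Θ m z hρ h1 h2 h3 h4 h5 h6 h7 hl hlA hπ hres hm hu hz F
    hF0 hF1
  have hmA : ∀ a, m a ∈ A0 := fun a => h7 _ _ (hz a)
  refine endgame_ind hl hπ hm (fun a => (hlA _).mpr (hmA a)) hu hz hρ (by positivity) ?_ hF0 hF1
  intro a b hab l' hl' hl'A
  have hne : m a ≠ m b := fun h => hab (hm h)
  refine hfr Q Y c N ρ κ A0 {m a, m b} π l' Θ hρ h1 h2 h3 h4 h5 ?_ ?_ h6 h7 hl' ?_ ?_ hres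
  · rw [Finset.card_pair hne]
  · intro y hy
    rcases Finset.mem_insert.mp hy with h | h
    · rw [h]
      exact hmA a
    · rw [Finset.mem_singleton.mp h]
      exact hmA b
  · intro y
    rw [hl'A, hlA]
  · intro y hy
    exact hπ y ((hl'A y).mp hy).1

end Pool.Agent.Stirring.MU
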