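import Pool.Agent.Lib.MP_6c3d62_pr.MU.Top
import Pool.Agent.Lib.MP_6c3d62_pr.Mg.G088
import Pool.Agent.Lib.MP_6c3d62_pr.Mg.G086

/-! MU: the length of the cycle of a vertex, from the uniformity of the induced permutations. -/

set_option autoImplicit false
set_option linter.unusedSectionVars false

open Finset Equiv Filter

namespace Pool.Agent.Stirring.MU

open Pool.Agent.Stirring

/-- The fraction of the permutations which fix a point. -/
theorem sum_fix {k : ℕ} (i0 : Fin k) :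
    (∑ τ : Perm (Fin k), if τ i0 = i0 then (1 : ℝ) else 0) / (k.factorial : ℝ) = 1 / k := by
  classical
  have h1 : ∀ j : Fin k, (∑ τ : Perm (Fin k), if τ i0 = j then (1 : ℝ) else 0) =
      ∑ τ : Perm (Fin k), if τ i0 = i0 then (1 : ℝ) else 0 := by
    intro j
    rw [← Equiv.sum_comp (Equiv.mulLeft (swap i0 j))
      (fun τ : Perm (Fin k) => if τ i0 = j then (1 : ℝ) else 0)]
    refine Finset.sum_congr rfl fun τ _ => ?_
    have h2 : (swap i0 j * τ) i0 = j ↔ τ i0 = i0 := by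
      rw [Perm.mul_apply]
      constructor
      · intro h
        have h3 := congrArg (swap i0 j) h
        rwa [swap_apply_self, swap_apply_right] at h3
      · intro h
        rw [h, swap_apply_left]
    simp only [Equiv.coe_mulLeft, h2]
  have h2 : (k : ℝ) * ∑ τ : Perm (Fin k), (if τ i0 = i0 then (1 : ℝ) else 0) =
      (k.factorial : ℝ) := by
    have h3 : ∑ j : Fin k, (∑ τ : Perm (Fin k), if τ i0 = j then (1 : ℝ) else 0) =
        (k.factorial : ℝ) := by
      rw [Finset.sum_comm]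
      simp only [Finset.sum_ite_eq, Finset.mem_univ, if_true]
      rw [Finset.sum_const, Finset.card_univ, Fintype.card_perm, Fintype.card_fin, nsmul_eq_mul,
        mul_one]
    rw [← h3, Finset.sum_congr rfl fun j _ => h1 j, Finset.sum_const, Finset.card_univ,
      Fintype.card_fin, nsmul_eq_mul]
  have hk : (0 : ℝ) < k := by
    have : 0 < k := i0.pos
    exact_mod_cast this
  have hf : (0 : ℝ) < (k.factorial : ℝ) := by exact_mod_cast Nat.factorial_pos k
  rw [div_eq_div_iff hf.ne' hk.ne', ← h2]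
  ring

/-- A marked point whose cycle contains no other marked point is fixed by the induced permutation. -/
theorem indF_fix {V : Type*} [Fintype V] [DecidableEq V] {k : ℕ} {z : Fin k → V}
    (hz : Function.Injective z) (i0 : Fin k) {σ : Perm V}
    (h : ∀ i, i ≠ i0 → z i ∉ cyc σ (z i0)) :
    indF (fun τ : Perm (Fin k) => if τ i0 = i0 then (1 : ℝ) else 0) z σ = 1 := by
  obtain ⟨τ, hτ⟩ := exists_induced σ hz
  rw [indF_eq hz hτ]
  refine if_pos ?_
  by_contra hne
  refine h (τ i0) hne ?_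
  rw [mem_cyc]
  obtain ⟨n, h1, -⟩ := hτ i0
  exact ⟨(n + 1 : ℕ), by rw [zpow_natCast, h1]⟩

section Line

variable {d L : ℕ} [NeZero L]

/-- Points on a line. -/
def pt (e0 : Fin d) (x : Fin d → ZMod L) (n : ℕ) : Fin d → ZMod L :=
  x + red d L (Pi.single e0 (n : ℤ))

theorem pt_inj (e0 : Fin d) (x : Fin d → ZMod L) {n n' : ℕ} (hn : n < L) (hn' : n' < L)
    (h : pt e0 x n = pt e0 x n') : n = n' := by
  have h1 := congrFun (add_left_cancel h) e0
  have h2 : ((n : ℕ) : ZMod L) = ((n' : ℕ) : ZMod L) := by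
    have h3 : ∀ m : ℕ, (red d L (Pi.single e0 (m : ℤ)) : Fin d → ZMod L) e0 = (m : ZMod L) := by
      intro m
      unfold red
      rw [Pi.single_eq_same]
      push_cast
      rfl
    rw [h3, h3] at h1
    exact h1
  rw [ZMod.natCast_eq_natCast_iff'] at h2
  rwa [Nat.mod_eq_of_lt hn, Nat.mod_eq_of_lt hn'] at h2

theorem pt_zero (e0 : Fin d) (x : Fin d → ZMod L) : pt e0 x 0 = x := by
  unfold pt red
  funext i
  simp only [Nat.cast_zero, Pi.single_zero, Pi.add_apply, Pi.zero_apply, Int.cast_zero, add_zero]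

/-- The positions of the `j`-th tuple. -/
def nj (k j i : ℕ) : ℕ := if i = 0 then 0 else j * (k - 1) + i

theorem nj_le {k j i M : ℕ} (hi : i < k) (hj : j < M) : nj k j i ≤ M * (k - 1) := by
  unfold nj
  split_ifs with h
  · exact Nat.zero_le _
  · have h1 : (j + 1) * (k - 1) ≤ M * (k - 1) := Nat.mul_le_mul_right _ hj
    have h2 : (j + 1) * (k - 1) = j * (k - 1) + (k - 1) := by ring
    omega

theorem nj_inj {k j i i' : ℕ} (h : nj k j i = nj k j i') : i = i' := by
  unfold nj at h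
  split_ifs at h with h1 h2 h2 <;> omega

theorem nj_inj' {k j j' i i' : ℕ} (hi : i ≠ 0) (hi' : i' ≠ 0) (hik : i < k) (hik' : i' < k)
    (h : nj k j i = nj k j' i') : j = j' := by
  unfold nj at h
  rw [if_neg hi, if_neg hi'] at h
  have h1 : ∀ j i, i ≠ 0 → i < k → (j * (k - 1) + i - 1) / (k - 1) = j := by
    intro j i hi hik
    have h2 : j * (k - 1) + i - 1 = (i - 1) + (k - 1) * j := by
      rw [mul_comm]
      omega
    rw [h2, Nat.add_mul_div_left _ _ (by omega), Nat.div_eq_of_lt (by omega), zero_add]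
  rw [← h1 j i hi hik, h, h1 j' i' hi' hik']

/-- The `j`-th tuple. -/
def tup (e0 : Fin d) (x : Fin d → ZMod L) (k j : ℕ) (i : Fin k) : Fin d → ZMod L :=
  pt e0 x (nj k j i)

theorem tup_inj (e0 : Fin d) (x : Fin d → ZMod L) {k j M : ℕ} (hj : j < M)
    (hM : M * (k - 1) < L) : Function.Injective (tup e0 x k j) := by
  intro i i' h
  have h1 := pt_inj e0 x (lt_of_le_of_lt (nj_le i.isLt hj) hM)
    (lt_of_le_of_lt (nj_le i'.isLt hj) hM) h
  exact Fin.ext (nj_inj h1)

theorem tup_dist (e0 : Fin d) (x : Fin d → ZMod L) {k j M : ℕ} (hj : j < M) {r : ℝ}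
    (hr : ((M * (k - 1) : ℕ) : ℝ) ≤ r) (i i' : Fin k) :
    ∃ u : Fin d → ℤ, tup e0 x k j i' = tup e0 x k j i + red d L u ∧ ∑ m, |(u m : ℝ)| ≤ r := by
  classical
  refine ⟨Pi.single e0 ((nj k j i' : ℤ) - (nj k j i : ℤ)), ?_, ?_⟩
  · unfold tup pt
    rw [add_assoc]
    congr 1
    funext m
    unfold red
    rw [Pi.add_apply]
    by_cases hm : m = e0
    · subst hm
      rw [Pi.single_eq_same, Pi.single_eq_same, Pi.single_eq_same]
      push_cast
      ring
    · rw [Pi.single_eq_of_ne hm, Pi.single_eq_of_ne hm, Pi.single_eq_of_ne hm]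
      simp
  · have hs : ∑ m, |(((Pi.single e0 ((nj k j i' : ℤ) - (nj k j i : ℤ)) : Fin d → ℤ) m : ℤ) : ℝ)| =
        |(nj k j i' : ℝ) - (nj k j i : ℝ)| := by
      rw [Finset.sum_eq_single e0]
      · rw [Pi.single_eq_same]
        push_cast
        rfl
      · intro m _ hm
        rw [Pi.single_eq_of_ne hm]
        simp
      · intro h
        exact absurd (Finset.mem_univ _) h
    refine le_trans (le_of_eq hs) (le_trans ?_ hr)
    · have h1 : (nj k j i' : ℝ) ≤ ((M * (k - 1) : ℕ) : ℝ) := by exact_mod_cast nj_le i'.isLt hj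
      have h2 : (nj k j i : ℝ) ≤ ((M * (k - 1) : ℕ) : ℝ) := by exact_mod_cast nj_le i.isLt hj
      have h3 : (0 : ℝ) ≤ (nj k j i' : ℝ) := Nat.cast_nonneg _
      have h4 : (0 : ℝ) ≤ (nj k j i : ℝ) := Nat.cast_nonneg _
      rw [abs_le]
      constructor <;> linarith

/-- The counting: a short cycle misses most of the tuples. -/
theorem count_miss (e0 : Fin d) (x : Fin d → ZMod L) {k M : ℕ} (hk : 0 < k)
    (hM : M * (k - 1) < L) (σ : Perm (Fin d → ZMod L)) :
    (M : ℝ) - (cyc σ x).card ≤ ∑ j ∈ Finset.range M,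
      indF (fun τ : Perm (Fin k) => if τ ⟨0, hk⟩ = ⟨0, hk⟩ then (1 : ℝ) else 0)
        (tup e0 x k j) σ := by
  classical
  set G := (Finset.range M).filter fun j =>
    ∃ i : Fin k, i ≠ ⟨0, hk⟩ ∧ tup e0 x k j i ∈ cyc σ x with hG
  have h0 : ∀ j, tup e0 x k j ⟨0, hk⟩ = x := by
    intro j
    unfold tup nj
    rw [if_pos rfl, pt_zero]
  have h1 : G.card ≤ (cyc σ x).card := by
    have hex : ∀ j ∈ G, ∃ i : Fin k, i ≠ ⟨0, hk⟩ ∧ tup e0 x k j i ∈ cyc σ x := fun j hj =>
      (Finset.mem_filter.mp hj).2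
    have : Inhabited (Fin k) := ⟨⟨0, hk⟩⟩
    choose! f hf1 hf2 using hex
    refine Finset.card_le_card_of_injOn (fun j => tup e0 x k j (f j)) (fun j hj => hf2 j hj) ?_
    intro j hj j' hj' h
    have hjM := Finset.mem_range.mp (Finset.mem_filter.mp hj).1
    have hjM' := Finset.mem_range.mp (Finset.mem_filter.mp hj').1
    have h2 := pt_inj e0 x (lt_of_le_of_lt (nj_le (f j).isLt hjM) hM)
      (lt_of_le_of_lt (nj_le (f j').isLt hjM') hM) h
    exact nj_inj' (fun h3 => hf1 j hj (Fin.ext h3)) (fun h3 => hf1 j' hj' (Fin.ext h3))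
      (f j).isLt (f j').isLt h2
  have h2 : ((Finset.range M \ G).card : ℝ) ≤ ∑ j ∈ Finset.range M,
      indF (fun τ : Perm (Fin k) => if τ ⟨0, hk⟩ = ⟨0, hk⟩ then (1 : ℝ) else 0)
        (tup e0 x k j) σ := by
    have h3 : ((Finset.range M \ G).card : ℝ) = ∑ j ∈ Finset.range M \ G,
        indF (fun τ : Perm (Fin k) => if τ ⟨0, hk⟩ = ⟨0, hk⟩ then (1 : ℝ) else 0)
          (tup e0 x k j) σ := by
      rw [Finset.card_eq_sum_ones]
      push_cast
      refine Finset.sum_congr rfl fun j hj => ?_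
      obtain ⟨hj1, hj2⟩ := Finset.mem_sdiff.mp hj
      refine (indF_fix (tup_inj e0 x (Finset.mem_range.mp hj1) hM) ⟨0, hk⟩ fun i hi hmem => ?_).symm
      rw [h0 j] at hmem
      exact hj2 (Finset.mem_filter.mpr ⟨hj1, i, hi, hmem⟩)
    rw [h3]
    refine Finset.sum_le_sum_of_subset_of_nonneg Finset.sdiff_subset fun j _ _ => ?_
    refine indF_nonneg (fun τ => ?_) _ σ
    split_ifs
    · exact zero_le_one
    · exact le_rfl
  refine le_trans ?_ h2
  have h3 : G ⊆ Finset.range M := Finset.filter_subset _ _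
  rw [Finset.card_sdiff_of_subset h3, Finset.card_range, Nat.cast_sub (by
    have := Finset.card_le_card h3
    rwa [Finset.card_range] at this)]
  have h4 : (G.card : ℝ) ≤ (cyc σ x).card := by exact_mod_cast h1
  linarith

/-- The probability of a short cycle. -/
theorem short_le (hd : 1 ≤ d) {t : ℝ} (ht : 0 ≤ t) {k M : ℕ} (hk : 0 < k)
    (hM : M * (k - 1) < L) {S δ r : ℝ} (hr : ((M * (k - 1) : ℕ) : ℝ) ≤ r) (hSM : 2 * S ≤ M)
    (hM0 : 0 < M)
    (h : ∀ z : Fin k → (Fin d → ZMod L), Function.Injective z →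
      (∀ i j, ∃ u : Fin d → ℤ, z j = z i + red d L u ∧ ∑ m, |(u m : ℝ)| ≤ r) →
      ∀ F : Perm (Fin k) → ℝ, (∀ τ, 0 ≤ F τ) → (∀ τ, F τ ≤ 1) →
        |expect d L t (indF F z) - (∑ τ, F τ) / (k.factorial : ℝ)| ≤ δ)
    (x : Fin d → ZMod L) :
    expect d L t (fun σ => if ((cyc σ x).card : ℝ) ≤ S then (1 : ℝ) else 0) ≤
      2 * (1 / k + δ) := by
  classical
  set e0 : Fin d := ⟨0, by omega⟩
  set F : Perm (Fin k) → ℝ := fun τ => if τ ⟨0, hk⟩ = ⟨0, hk⟩ then (1 : ℝ) else 0 with hF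
  have hF0 : ∀ τ, 0 ≤ F τ := by
    intro τ
    rw [hF]
    show 0 ≤ (if τ ⟨0, hk⟩ = ⟨0, hk⟩ then (1 : ℝ) else 0)
    split_ifs
    · exact zero_le_one
    · exact le_rfl
  have hF1 : ∀ τ, F τ ≤ 1 := by
    intro τ
    rw [hF]
    show (if τ ⟨0, hk⟩ = ⟨0, hk⟩ then (1 : ℝ) else 0) ≤ 1
    split_ifs
    · exact le_rfl
    · exact zero_le_one
  have hM0' : (0 : ℝ) < M := by exact_mod_cast hM0
  have h1 : ∀ j ∈ Finset.range M, expect d L t (indF F (tup e0 x k j)) ≤ 1 / k + δ := by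
    intro j hj
    have hj' := Finset.mem_range.mp hj
    have h2 := h (tup e0 x k j) (tup_inj e0 x hj' hM) (tup_dist e0 x hj' hr) F hF0 hF1
    have h3 : (∑ τ, F τ) / (k.factorial : ℝ) = 1 / k := sum_fix ⟨0, hk⟩
    rw [h3] at h2
    linarith [(abs_le.mp h2).2]
  have h2 : ∑ j ∈ Finset.range M, expect d L t (indF F (tup e0 x k j)) ≤ M * (1 / k + δ) := by
    refine (Finset.sum_le_sum h1).trans (le_of_eq ?_)
    rw [Finset.sum_const, Finset.card_range, nsmul_eq_mul]
  have h3 : expect d L t (fun σ => (M / 2 : ℝ) *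
      (if ((cyc σ x).card : ℝ) ≤ S then (1 : ℝ) else 0)) ≤
      expect d L t (fun σ => ∑ j ∈ Finset.range M, indF F (tup e0 x k j) σ) := by
    refine expect_mono ht fun σ => ?_
    have h4 := count_miss e0 x hk hM σ
    split_ifs with h5
    · rw [mul_one]
      refine le_trans ?_ h4
      linarith
    · rw [mul_zero]
      exact Finset.sum_nonneg fun j _ => indF_nonneg hF0 _ σ
  rw [expect_smul, expect_sum] at h3
  have h4 := h3.trans h2
  have h5 : (M / 2 : ℝ) * expect d L t (fun σ => if ((cyc σ x).card : ℝ) ≤ S then (1 : ℝ) else 0) ≤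
      (M / 2 : ℝ) * (2 * (1 / k + δ)) := by
    refine h4.trans (le_of_eq ?_)
    ring
  exact le_of_mul_le_mul_left h5 (by positivity)

end Line

/-- The numbers. -/
theorem len_num {u : ℝ} (hu : 6 ≤ u) :
    2 * Real.exp u ≤ Real.exp (u ^ 2) / u ^ 2 - 1 := by
  have h1 : u ^ 2 / 2 ≤ Real.exp u := by
    have := Real.quadratic_le_exp_of_nonneg (by linarith : 0 ≤ u)
    nlinarith
  have h2 : (6 : ℝ) ≤ Real.exp u := by
    have := Real.add_one_le_exp u
    linarith
  have hE : 0 < Real.exp u := Real.exp_pos u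
  have h3 : Real.exp u ^ 3 ≤ Real.exp (u ^ 2) := by
    rw [← Real.exp_nat_mul]
    refine Real.exp_le_exp.mpr ?_
    push_cast
    nlinarith
  have h4 : (2 * Real.exp u + 1) * u ^ 2 ≤ Real.exp (u ^ 2) := by
    refine le_trans ?_ h3
    have h5 : (2 * Real.exp u + 1) * u ^ 2 ≤ (3 * Real.exp u) * (2 * Real.exp u) :=
      mul_le_mul (by linarith) (by linarith) (by positivity) (by positivity)
    refine h5.trans ?_
    have h6 : Real.exp u ^ 3 = Real.exp u * (Real.exp u * Real.exp u) := by ring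
    rw [h6]
    nlinarith [mul_pos hE hE]
  rw [le_sub_iff_add_le, le_div_iff₀ (by positivity)]
  exact h4

/-- The induced permutations are almost uniform and the cycle of a vertex is long. -/
theorem local_uniform_len (d : ℕ) (hd : 2 ≤ d) : ∃ a c : ℝ, 0 < a ∧ 0 < c ∧ ∃ t₀ : ℝ, ∀ t : ℝ,
    t₀ ≤ t → ∀ (L : ℕ) [NeZero L], Real.exp (t ^ c) ≤ L →
      (∀ k : ℕ, (k : ℝ) ≤ t ^ a →
        ∀ z : Fin k → (Fin d → ZMod L), Function.Injective z →
        (∀ i j, ∃ u : Fin d → ℤ, z j = z i + red d L u ∧ ∑ m, |(u m : ℝ)| ≤ Real.exp (t ^ a)) →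
        ∀ F : Perm (Fin k) → ℝ, (∀ τ, 0 ≤ F τ) → (∀ τ, F τ ≤ 1) →
          |expect d L t (indF F z) - (∑ τ, F τ) / (k.factorial : ℝ)| ≤ t ^ (-a)) ∧
      ∀ x : Fin d → ZMod L,
        expect d L t (fun σ => if ((cyc σ x).card : ℝ) ≤ Real.exp (t ^ a) then (1 : ℝ) else 0) ≤
          t ^ (-a) := by
  classical
  obtain ⟨a, c, ha, hc, t₀, h⟩ := local_uniform d hd
  refine ⟨a / 2, max c a, by positivity, lt_max_of_lt_left hc,
    max (max t₀ 1) (6 ^ (2 / a)), ?_⟩
  intro t ht L _ hL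
  have ht0 : t₀ ≤ t := (le_max_left _ _).trans ((le_max_left _ _).trans ht)
  have ht1 : 1 ≤ t := (le_max_right _ _).trans ((le_max_left _ _).trans ht)
  have ht6 : (6 : ℝ) ^ (2 / a) ≤ t := (le_max_right _ _).trans ht
  have htp : 0 < t := by linarith
  have hLc : Real.exp (t ^ c) ≤ L :=
    (Real.exp_le_exp.mpr (Real.rpow_le_rpow_of_exponent_le ht1 (le_max_left _ _))).trans hL
  have hLa : Real.exp (t ^ a) ≤ L :=
    (Real.exp_le_exp.mpr (Real.rpow_le_rpow_of_exponent_le ht1 (le_max_right _ _))).trans hL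
  have haa : a / 2 ≤ a := by linarith
  have hta : t ^ (a / 2) ≤ t ^ a := Real.rpow_le_rpow_of_exponent_le ht1 haa
  have hneg : t ^ (-a) ≤ t ^ (-(a / 2)) := Real.rpow_le_rpow_of_exponent_le ht1 (by linarith)
  set u : ℝ := t ^ (a / 2) with hu
  have hu6 : 6 ≤ u := by
    have h1 : ((6 : ℝ) ^ (2 / a)) ^ (a / 2) ≤ t ^ (a / 2) :=
      Real.rpow_le_rpow (by positivity) ht6 (by positivity)
    rw [← Real.rpow_mul (by norm_num)] at h1
    have h2 : 2 / a * (a / 2) = 1 := by field_simp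
    rwa [h2, Real.rpow_one] at h1
  have hu2 : t ^ a = u ^ 2 := by
    rw [hu, ← Real.rpow_natCast, ← Real.rpow_mul htp.le]
    congr 1
    push_cast
    ring
  have hui : t ^ (-(a / 2)) = 1 / u := by
    rw [Real.rpow_neg htp.le, hu, one_div]
  have hui2 : t ^ (-a) = 1 / u ^ 2 := by
    rw [Real.rpow_neg htp.le, hu2, one_div]
  refine ⟨?_, ?_⟩
  · intro k hk z hz hdist F hF0 hF1
    refine (h t ht0 L hLc k (hk.trans hta) z hz (fun i j => ?_) F hF0 hF1).trans hneg
    obtain ⟨w, hw1, hw2⟩ := hdist i j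
    exact ⟨w, hw1, hw2.trans (Real.exp_le_exp.mpr hta)⟩
  · intro x
    have hu0 : 0 < u := by linarith
    have hu2' : (36 : ℝ) ≤ u ^ 2 := by nlinarith
    obtain ⟨k, hkdef⟩ : ∃ k : ℕ, k = ⌊u ^ 2⌋₊ := ⟨_, rfl⟩
    have hk1 : (k : ℝ) ≤ u ^ 2 := by rw [hkdef]; exact Nat.floor_le (by positivity)
    have hk2 : u ^ 2 - 1 < k := by rw [hkdef]; exact Nat.sub_one_lt_floor _
    have hkR : (0 : ℝ) < k := by linarith
    have hk0 : 0 < k := by exact_mod_cast hkR
    set E := Real.exp (u ^ 2) with hE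
    have hE0 : 0 < E := Real.exp_pos _
    obtain ⟨M, hMdef⟩ : ∃ M : ℕ, M = ⌊E / k⌋₊ := ⟨_, rfl⟩
    have hM1 : (M : ℝ) ≤ E / k := by rw [hMdef]; exact Nat.floor_le (by positivity)
    have hM2 : E / k - 1 < M := by rw [hMdef]; exact Nat.sub_one_lt_floor _
    have hMk : (M : ℝ) * k ≤ E := by
      rwa [le_div_iff₀ hkR] at hM1
    have hSM : 2 * Real.exp u ≤ M := by
      refine (len_num hu6).trans ?_
      have h1 : E / u ^ 2 ≤ E / k := div_le_div_of_nonneg_left hE0.le hkR hk1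
      linarith
    have hM0 : 0 < M := by
      have h1 : (0 : ℝ) < M := lt_of_lt_of_le (by positivity) hSM
      exact_mod_cast h1
    have hM0' : (0 : ℝ) < M := by exact_mod_cast hM0
    have hMk1 : ((M * (k - 1) : ℕ) : ℝ) < E := by
      rw [Nat.cast_mul, Nat.cast_sub hk0, Nat.cast_one]
      nlinarith
    have hML : M * (k - 1) < L := by
      have h1 : ((M * (k - 1) : ℕ) : ℝ) < L := by
        refine lt_of_lt_of_le hMk1 ?_
        rw [hE, ← hu2]
        exact hLa
      exact_mod_cast h1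
    have key := short_le (d := d) (L := L) (by omega) htp.le hk0 hML (S := Real.exp u)
      (δ := 1 / u ^ 2) (r := Real.exp (t ^ a)) (by rw [hu2]; exact hMk1.le) hSM hM0
      (fun z hz hdist F hF0 hF1 => by
        rw [← hui2]
        exact h t ht0 L hLc k (by rw [hu2]; exact hk1) z hz hdist F hF0 hF1) x
    refine key.trans ?_
    rw [hui]
    have h1 : 1 / (k : ℝ) ≤ 2 / u ^ 2 := by
      rw [div_le_div_iff₀ hkR (by positivity)]
      linarith
    calc 2 * (1 / (k : ℝ) + 1 / u ^ 2) ≤ 2 * (2 / u ^ 2 + 1 / u ^ 2) := by linarith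
      _ = 6 / u ^ 2 := by ring
      _ ≤ 1 / u := by
        rw [div_le_div_iff₀ (by positivity) hu0]
        nlinarith

end Pool.Agent.Stirring.MU
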