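import Pool.Agent.Lib.MP_6c3d62_pr.MU.Def
import Pool.Agent.Lib.MP_6c3d62_pr.Mg.G025
import Pool.Agent.Lib.MP_6c3d62_pr.Mg.G063

/-! MU, row F: translations, and near points are moved apart, for functions of the induced
permutation. -/

set_option autoImplicit false
set_option linter.unusedSectionVars false

open Finset Equiv

namespace Pool.Agent.Stirring.MU

open Pool.Agent.Stirring Pool.Agent.Stirring.LC

theorem induced_conj {V ι : Type*} (g σ : Perm V) (z : ι → V) (τ : Perm ι) :
    Induced (g * σ * g⁻¹) (fun i => g (z i)) τ ↔ Induced σ z τ := by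
  unfold Induced
  refine forall_congr' fun i => exists_congr fun n => and_congr ?_ ?_
  · rw [conj_pow, Perm.mul_apply, Perm.mul_apply, show g⁻¹ (g (z i)) = z i from g.symm_apply_apply _]
    exact g.injective.eq_iff
  · refine forall_congr' fun m => forall_congr' fun _ => forall_congr' fun j => ?_
    rw [conj_pow, Perm.mul_apply, Perm.mul_apply, show g⁻¹ (g (z i)) = z i from g.symm_apply_apply _]
    exact g.injective.ne_iff

theorem indF_conj {V ι : Type*} [Fintype ι] [DecidableEq ι] (g σ : Perm V) (z : ι → V)
    (F : Perm ι → ℝ) : indF F (fun i => g (z i)) (g * σ * g⁻¹) = indF F z σ := by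
  classical
  unfold indF
  exact Finset.sum_congr rfl fun τ _ => by simp only [induced_conj]

/-- As `LC.patP_add`. -/
theorem indF_add {d L : ℕ} [NeZero L] {k : ℕ} (t : ℝ) (a : Fin d → ZMod L)
    (z : Fin k → (Fin d → ZMod L)) (F : Perm (Fin k) → ℝ) :
    expect d L t (indF F (fun i => z i + a)) = expect d L t (indF F z) := by
  rw [expect_trans t a (indF F (fun i => z i + a))]
  congr 1
  funext σ
  have h1 : (fun i => z i + a) = fun i => trans d L a (z i) := by
    funext i
    simp [trans]
  rw [h1]
  exact indF_conj _ _ _ _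

/-- The transposition of two points at distance `n` on a line is a product of at most `2 n`
transpositions of neighbours. -/
theorem exists_word {d L : ℕ} [NeZero L] (i0 : Fin d) (x : Fin d → ZMod L) (n : ℕ) :
    ∃ l : List (Perm (Fin d → ZMod L)),
      (∀ g ∈ l, ∃ (y : Fin d → ZMod L) (i : Fin d), g = swap y (y + Pi.single i 1)) ∧
      l.length ≤ 2 * n ∧ l.prod = swap x (x + red d L (Pi.single i0 (n : ℤ))) := by
  induction n with
  | zero =>
    refine ⟨[], fun g hg => absurd hg List.not_mem_nil, le_rfl, ?_⟩
    have h : red d L (Pi.single i0 (((0 : ℕ)) : ℤ)) = 0 := by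
      ext j; simp [red]
    rw [h, add_zero, swap_self, List.prod_nil]
    rfl
  | succ n ih =>
    obtain ⟨l, h1, h2, h3⟩ := ih
    set y := x + red d L (Pi.single i0 (n : ℤ)) with hy
    have hw : x + red d L (Pi.single i0 (((n + 1 : ℕ)) : ℤ)) = y + Pi.single i0 1 := by
      rw [hy, add_assoc]
      congr 1
      ext j
      by_cases hj : j = i0
      · subst hj
        simp [red]
      · simp [red, Pi.single_eq_of_ne hj]
    rw [hw]
    set w := y + Pi.single i0 1 with hwd
    by_cases hwx : w = x
    · refine ⟨[], fun g hg => absurd hg List.not_mem_nil, Nat.zero_le _, ?_⟩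
      rw [hwx, swap_self, List.prod_nil]
      rfl
    by_cases hwy : w = y
    · exact ⟨l, h1, by omega, by rw [h3, hwy]⟩
    by_cases hxy : y = x
    · refine ⟨[swap y w], fun g hg => ⟨y, i0, ?_⟩, by simp; omega, ?_⟩
      · rw [List.mem_singleton.1 hg, hwd]
      · rw [List.prod_singleton, hxy]
    · refine ⟨[swap y w] ++ l ++ [swap y w], fun g hg => ?_, ?_, ?_⟩
      · rw [List.mem_append, List.mem_append] at hg
        rcases hg with (hg | hg) | hg
        · exact ⟨y, i0, by rw [List.mem_singleton.1 hg, hwd]⟩
        · exact h1 g hg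
        · exact ⟨y, i0, by rw [List.mem_singleton.1 hg, hwd]⟩
      · simp only [List.length_append, List.length_singleton]
        omega
      · rw [List.prod_append, List.prod_append, List.prod_singleton, h3]
        have e1 := Equiv.swap_apply_apply (swap y w) x y
        rw [swap_apply_left, swap_apply_of_ne_of_ne (Ne.symm hxy) (Ne.symm hwx), swap_inv] at e1
        exact e1.symm

/-- As `LC.move_apart` (with `LC.exists_place` and `LC.expect_conj`). -/
theorem move_ind {d : ℕ} (hd : 1 ≤ d) {L : ℕ} [NeZero L] (hL : 2 ≤ L) {t : ℝ} (ht : 1 ≤ t)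
    {B k : ℕ} (hB : 1 ≤ B) (hBk : 2 * B * k ≤ L) (i0 : Fin d) {z : Fin k → (Fin d → ZMod L)}
    (hz : Function.Injective z) :
    ∃ z' : Fin k → (Fin d → ZMod L), Function.Injective z' ∧
      (∀ i, ∃ n : ℕ, n ≤ 2 * B * k ∧ z' i = z i + red d L (Pi.single i0 (n : ℤ))) ∧
      (∀ i j, i ≠ j → B ≤ QK.nrm (z' i - z' j)) ∧
      ∀ F : Perm (Fin k) → ℝ, (∀ τ, 0 ≤ F τ) → (∀ τ, F τ ≤ 1) →
        |expect d L t (indF F z) - expect d L t (indF F z')| ≤ 20 * B * (k : ℝ) ^ 2 * eta d t := by
  classical
  have hcard : Fintype.card (Fin k) = k := Fintype.card_fin k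
  have heta := eta_nonneg d t
  have main : ∀ A : Finset (Fin k), ∃ z' : Fin k → (Fin d → ZMod L), Function.Injective z' ∧
      (∀ i, i ∉ A → z' i = z i) ∧
      (∀ i, ∃ n : ℕ, n ≤ 2 * B * k ∧ z' i = z i + red d L (Pi.single i0 (n : ℤ))) ∧
      (∀ i ∈ A, ∀ j, j ≠ i → B ≤ QK.nrm (z' i - z' j)) ∧
      ∀ F : Perm (Fin k) → ℝ, (∀ τ, 0 ≤ F τ) → (∀ τ, F τ ≤ 1) →
        |expect d L t (indF F z) - expect d L t (indF F z')| ≤
          A.card * (16 * B * k * eta d t) := by
    intro A
    induction A using Finset.induction_on with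
    | empty =>
      refine ⟨z, hz, fun i _ => rfl, fun i => ⟨0, Nat.zero_le _, ?_⟩, fun i hi => ?_,
        fun F _ _ => ?_⟩
      · have : red d L (Pi.single i0 (((0 : ℕ)) : ℤ)) = 0 := by
          ext j; simp [red]
        rw [this, add_zero]
      · exact absurd hi (Finset.notMem_empty _)
      · rw [sub_self, abs_zero, Finset.card_empty, Nat.cast_zero, zero_mul]
    | insert a A ha ih =>
      obtain ⟨z', h1, h2, h3, h4, h5⟩ := ih
      obtain ⟨n, hn1, hn2⟩ := exists_place (L := L) i0 hB (by rw [hcard]; exact hBk) z' a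
      rw [hcard] at hn1
      set p := z' a + red d L (Pi.single i0 (n : ℤ)) with hp
      have hpne : ∀ j, j ≠ a → z' j ≠ p := by
        intro j hj h
        have h6 := hn2 j hj
        rw [h, sub_self] at h6
        have h7 : QK.nrm (0 : Fin d → ZMod L) = 0 := by
          unfold QK.nrm
          rw [← Nat.le_zero]
          refine Finset.sup_le fun i _ => ?_
          simp
        omega
      set z'' : Fin k → (Fin d → ZMod L) := fun i => Equiv.swap (z' a) p (z' i) with hz''
      have e1 : z'' a = p := by simp only [hz'']; exact Equiv.swap_apply_left _ _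
      have e2 : ∀ j, j ≠ a → z'' j = z' j := by
        intro j hj
        simp only [hz'']
        exact Equiv.swap_apply_of_ne_of_ne (fun h => hj (h1 h)) (hpne j hj)
      refine ⟨z'', fun i j h => h1 ((Equiv.swap _ _).injective h), ?_, ?_, ?_, ?_⟩
      · intro i hi
        rw [Finset.mem_insert, not_or] at hi
        rw [e2 i hi.1]
        exact h2 i hi.2
      · intro i
        by_cases hia : i = a
        · subst hia
          exact ⟨n, hn1, by rw [e1, hp, h2 i ha]⟩
        · rw [e2 i hia]
          exact h3 i
      · intro i hi j hj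
        by_cases hia : i = a
        · subst hia
          rw [e1, e2 j hj]
          exact hn2 j hj
        · rw [e2 i hia]
          have hiA : i ∈ A := (Finset.mem_insert.1 hi).resolve_left hia
          by_cases hja : j = a
          · subst hja
            rw [e1, QK.nrm_sub_comm]
            exact hn2 i hia
          · rw [e2 j hja]
            exact h4 i hiA j hj
      · intro F hF0 hF1
        obtain ⟨l, hl1, hl2, hl3⟩ := exists_word i0 (z' a) n
        rw [← hp] at hl3
        have h6 := expect_conj hd hL ht l hl1 (F := indF F z') (fun σ => by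
          rw [abs_of_nonneg (indF_nonneg hF0 z' σ)]
          exact indF_le_one hF1 h1 σ)
        rw [hl3] at h6
        have h7 : (fun σ => indF F z' (swap (z' a) p * σ * (swap (z' a) p)⁻¹)) = indF F z'' := by
          funext σ
          have h8 := indF_conj (swap (z' a) p)⁻¹ (swap (z' a) p * σ * (swap (z' a) p)⁻¹) z' F
          rw [← h8]
          have h9 : (swap (z' a) p)⁻¹ * (swap (z' a) p * σ * (swap (z' a) p)⁻¹) *
              ((swap (z' a) p)⁻¹)⁻¹ = σ := by group
          rw [h9]
          simp only [swap_inv, hz'']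
        rw [h7] at h6
        have h8 : |expect d L t (indF F z') - expect d L t (indF F z'')| ≤
            16 * B * k * eta d t := by
          rw [abs_sub_comm]
          refine h6.trans ?_
          have h9 : (l.length : ℝ) ≤ 4 * B * k := by
            have : l.length ≤ 4 * B * k := by
              calc l.length ≤ 2 * n := hl2
                _ ≤ 2 * (2 * B * k) := Nat.mul_le_mul_left _ hn1
                _ = 4 * B * k := by ring
            exact_mod_cast this
          calc 4 * ((l.length : ℝ) * eta d t) ≤ 4 * ((4 * B * k) * eta d t) :=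
                mul_le_mul_of_nonneg_left (mul_le_mul_of_nonneg_right h9 heta) (by norm_num)
            _ = 16 * B * k * eta d t := by ring
        have h10 := abs_sub_le (expect d L t (indF F z)) (expect d L t (indF F z'))
          (expect d L t (indF F z''))
        rw [Finset.card_insert_of_notMem ha]
        push_cast
        have h11 := h5 F hF0 hF1
        linarith
  obtain ⟨z', h1, _, h3, h4, h5⟩ := main Finset.univ
  refine ⟨z', h1, h3, fun i j hij => h4 i (Finset.mem_univ _) j (Ne.symm hij),
    fun F hF0 hF1 => (h5 F hF0 hF1).trans ?_⟩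
  rw [Finset.card_univ, hcard]
  have h12 : 0 ≤ (B : ℝ) * (k : ℝ) ^ 2 * eta d t := by positivity
  nlinarith

end Pool.Agent.Stirring.MU
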