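import Pool.Agent.Lib.MP_6c3d62_pr.MU.Def
import Pool.Agent.Lib.MP_6c3d62_pr.Mg.G070

/-!
# The representation in space-time, for functions of the induced permutation
-/

set_option autoImplicit false
set_option linter.unusedSectionVars false

open Finset Equiv Pool.Agent.Stirring Pool.Agent.Stirring.MU

namespace Pool.Agent.PL

section ReprInd

variable {V : Type} [Fintype V] [DecidableEq V]

theorem gr_round_mul (J : ℕ) (T s : ℕ → Perm V) (Φ : Perm V) (k : ℕ) (v : V) :
    (((stP J (fun j => (T j)⁻¹) Φ⁻¹)⁻¹ * gr_LA (J + 1) s) ^ ((J + 1) * k)) (0, v)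
      = (0, ((gr_PP T s J * Φ * s 0) ^ k) v) := by
  induction k with
  | zero => simp
  | succ k ih =>
    rw [Nat.mul_succ, add_comm ((J + 1) * k) (J + 1), pow_add, Perm.mul_apply, ih, gr_P_round,
      pow_succ']
    rfl

theorem gr_dvd_of_pow (J : ℕ) (T s : ℕ → Perm V) (Φ : Perm V) {n : ℕ} {x y : V}
    (h : (((stP J (fun j => (T j)⁻¹) Φ⁻¹)⁻¹ * gr_LA (J + 1) s) ^ n) (0, x) = (0, y)) :
    J + 1 ∣ n := by
  have h1 := gr_P_level_pow J T s Φ (0, x) n
  rw [h] at h1
  have h2 : (gr_lv J n) = 0 := by simpa using h1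
  rwa [gr_lv_eq_zero] at h2

theorem gr_induced (J : ℕ) (T s : ℕ → Perm V) (Φ : Perm V) {k : ℕ} (z : Fin k → V)
    (τ : Perm (Fin k)) :
    Induced ((stP J (fun j => (T j)⁻¹) Φ⁻¹)⁻¹ * gr_LA (J + 1) s)
        (fun i => ((0 : Fin (J + 1)), z i)) τ
      ↔ Induced (gr_PP T s J * Φ * s 0) z τ := by
  have hr := gr_round_mul J T s Φ
  have hd := fun {n : ℕ} {x y : V} => gr_dvd_of_pow J T s Φ (n := n) (x := x) (y := y)
  set P := (stP J (fun j => (T j)⁻¹) Φ⁻¹)⁻¹ * gr_LA (J + 1) s with hP
  set W := gr_PP T s J * Φ * s 0 with hW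
  constructor
  · intro h i
    obtain ⟨n, h1, h2⟩ := h i
    obtain ⟨K, hK⟩ := hd h1
    obtain ⟨m, rfl⟩ : ∃ m, K = m + 1 := by
      rcases K with _ | m
      · simp at hK
      · exact ⟨m, rfl⟩
    refine ⟨m, ?_, ?_⟩
    · have h3 : (P ^ (n + 1)) (0, z i) = (0, z (τ i)) := h1
      rw [hK, hr] at h3
      exact congrArg Prod.snd h3
    · intro l hl j hj
      have h4 : (J + 1) * (l + 1) < (J + 1) * (m + 1) :=
        Nat.mul_lt_mul_of_pos_left (by omega) (by omega)
      have h5 : 0 < (J + 1) * (l + 1) := by positivity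
      have h6 := h2 ((J + 1) * (l + 1) - 1) (by omega) j
      apply h6
      rw [Nat.sub_add_cancel h5, hr, hj]
  · intro h i
    obtain ⟨m, h1, h2⟩ := h i
    have h5 : 0 < (J + 1) * (m + 1) := by positivity
    refine ⟨(J + 1) * (m + 1) - 1, ?_, ?_⟩
    · rw [Nat.sub_add_cancel h5, hr, h1]
    · intro n hn j hj
      have hj' : (P ^ (n + 1)) (0, z i) = (0, z j) := hj
      obtain ⟨K, hK⟩ := hd hj'
      obtain ⟨l, rfl⟩ : ∃ l, K = l + 1 := by
        rcases K with _ | l
        · simp at hK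
        · exact ⟨l, rfl⟩
      rw [hK, hr] at hj'
      have h6 : (J + 1) * (l + 1) < (J + 1) * (m + 1) := by omega
      have h7 : l < m := by
        have := Nat.lt_of_mul_lt_mul_left h6
        omega
      exact h2 l h7 j (congrArg Prod.snd hj')

end ReprInd

/-- As `gr_patI`. -/
theorem gr_indF {V : Type} [AddCommGroup V] [Fintype V] [DecidableEq V] (J : ℕ)
    (T s : ℕ → Perm V) (Φ : Perm V) {k : ℕ} (z : Fin k → V) (F : Perm (Fin k) → ℝ) :
    indF F (fun i => ((0 : Fin (J + 1)), z i))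
        ((stP J (fun j => (T j)⁻¹) Φ⁻¹)⁻¹ * gr_LA (J + 1) s)
      = indF F z (gr_PP T s J * Φ * s 0) := by
  classical
  unfold indF
  refine Finset.sum_congr rfl fun τ _ => ?_
  by_cases hc : Induced (gr_PP T s J * Φ * s 0) z τ
  · rw [if_pos ((gr_induced J T s Φ z τ).mpr hc), if_pos hc]
  · rw [if_neg (fun h1 => hc ((gr_induced J T s Φ z τ).mp h1)), if_neg hc]

section ReprInd2

variable {V : Type} [AddCommGroup V] [Fintype V] [DecidableEq V] {Ω : Type} [Fintype Ω]

/-- As `inner_repr`. -/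
theorem inner_repr_ind {S : QK.Slab V Ω} {Q : Finset V} (hQ : Q.Nonempty)
    (l : List (Ω × (V → Perm V → ℝ))) (hl : Adm S Q l)
    (hdis : ∀ a, QK.Dis Q (S.good a)) {M0 : Finset V} (hM0 : QK.Dis Q M0) (Φ : Perm V) {k : ℕ}
    (z : Fin k → V) (F : Perm (Fin k) → ℝ) :
    ∃ (π : Fin (l.length + 1) × V → Perm (Fin (l.length + 1) × V) → ℝ)
      (nodes : List (Fin (l.length + 1) × V)),
      nodes.Nodup ∧
      (∀ y, y ∈ nodes ↔ ∃ q, stc l.length (envW S Q M0 (l.map Prod.fst)) q = some y) ∧
      (∀ y ∈ nodes, (univ.filter fun q =>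
        stc l.length (envW S Q M0 (l.map Prod.fst)) q = some y).card = Q.card) ∧
      (∀ y ∈ nodes, Dens (stc l.length (envW S Q M0 (l.map Prod.fst))) Q.card 4 y (π y)) ∧
      (∀ y ∈ M0, ∀ σ, π (0, y) σ = open Classical in
        if ∀ q, stc l.length (envW S Q M0 (l.map Prod.fst)) q ≠ some (0, y) → σ q = q
          then 1 / (Q.card.factorial : ℝ) else 0) ∧
      JS S (fun g => JL (wUnif Q) (indF F z) M0.toList (g * Φ)) l 1
        = JL π (indF F (fun i => ((0 : Fin (l.length + 1)), z i))) nodes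
            (stP l.length (envS S (l.map Prod.fst)) Φ⁻¹)⁻¹ := by
  classical
  set w := envW S Q M0 (l.map Prod.fst) with hw
  -- the set of windows of each level
  set Gs : ℕ → Finset V := fun j => ((M0 :: (l.map Prod.fst).map S.good).getD j ∅) with hGs
  have hwG : ∀ j, w j = colW Q (Gs j) := fun j => rfl
  have hG0 : Gs 0 = M0 := rfl
  have hG1 : ∀ i (h : i < l.length), Gs (i + 1) = S.good (l[i]).1 := by
    intro i h
    show (M0 :: (l.map Prod.fst).map S.good).getD (i + 1) ∅ = _
    rw [List.getD_cons_succ, List.getD_eq_getElem _ _ (by simpa using h)]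
    simp
  have hGd : ∀ j, QK.Dis Q (Gs j) := by
    intro j
    rcases j with _ | i
    · exact hM0
    · by_cases h : i < l.length
      · rw [hG1 i h]; exact hdis _
      · have : Gs (i + 1) = ∅ := by
          show (M0 :: (l.map Prod.fst).map S.good).getD (i + 1) ∅ = _
          rw [List.getD_cons_succ, List.getD_eq_default _ _ (by simpa using h)]
        rw [this]
        intro q hq
        exact absurd hq (Finset.notMem_empty q)
  -- the laws
  set lw : ℕ → V → Perm V → ℝ := fun j => ((wUnif Q) :: l.map Prod.snd).getD j (wUnif Q) with hlw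
  have hl1 : ∀ i (h : i < l.length), lw (i + 1) = (l[i]).2 := by
    intro i h
    show ((wUnif Q) :: l.map Prod.snd).getD (i + 1) (wUnif Q) = _
    rw [List.getD_cons_succ, List.getD_eq_getElem _ _ (by simpa using h)]
    simp
  have hlW : ∀ j, ∀ y ∈ Gs j, WDens Q y (lw j y) := by
    intro j y hy
    rcases j with _ | i
    · exact gr_wUnif_dens Q y
    · by_cases h : i < l.length
      · rw [hl1 i h]
        rw [hG1 i h] at hy
        exact hl _ (List.getElem_mem h) y hy
      · have : lw (i + 1) = wUnif Q := by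
          show ((wUnif Q) :: l.map Prod.snd).getD (i + 1) (wUnif Q) = _
          rw [List.getD_cons_succ, List.getD_eq_default _ _ (by simpa using h)]
        rw [this]
        exact gr_wUnif_dens Q y
  set π : Fin (l.length + 1) × V → Perm (Fin (l.length + 1) × V) → ℝ :=
    fun q => gr_push (l.length + 1) q.1 (lw q.1 q.2) with hπ
  have hmem : ∀ q : Fin (l.length + 1) × V, q ∈ gr_nd S l.length M0 0 l ↔ q.2 ∈ Gs q.1 := by
    intro q
    rw [gr_nd_mem S l.length M0 l 0 (by omega)]
    constructor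
    · rintro (⟨h1, h2⟩ | ⟨i, hi, h1, h2⟩)
      · rw [h1, hG0]; exact h2
      · rw [h1, show 0 + 1 + i = i + 1 by omega, hG1 i hi]; exact h2
    · intro h
      rcases hq : (q.1 : ℕ) with _ | i
      · rw [hq, hG0] at h
        exact Or.inl ⟨rfl, h⟩
      · have hi : i < l.length := by have := q.1.isLt; omega
        rw [hq, hG1 i hi] at h
        exact Or.inr ⟨i, hi, by omega, h⟩
  refine ⟨π, gr_nd S l.length M0 0 l, gr_nd_nodup S l.length M0 l 0 (by omega), ?_, ?_, ?_, ?_, ?_⟩
  · rintro ⟨i, y⟩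
    rw [hmem]
    constructor
    · intro hy
      obtain ⟨q0, hq0⟩ := hQ
      refine ⟨(i, y + q0), ?_⟩
      rw [gr_stc_some w i (hwG i) (hGd i) hy]
      exact ⟨rfl, by simpa using hq0⟩
    · rintro ⟨⟨j, v⟩, hq⟩
      change (w j v).map (fun x => (j, x)) = some (i, y) at hq
      rw [Option.map_eq_some_iff] at hq
      obtain ⟨x, hx, hxy⟩ := hq
      have h1 : j = i := congrArg Prod.fst hxy
      have h2 : x = y := congrArg Prod.snd hxy
      subst h1
      subst h2
      rw [hwG] at hx
      exact (gr_colW_mem hx).1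
  · rintro ⟨i, y⟩ hy
    rw [hmem] at hy
    have h1 : (univ.filter fun q : Fin (l.length + 1) × V => stc l.length w q = some (i, y))
        = (univ.filter fun v : V => v - y ∈ Q).image fun v => (i, v) := by
      ext ⟨j, v⟩
      simp only [Finset.mem_filter, Finset.mem_univ, true_and, Finset.mem_image,
        gr_stc_some w i (hwG i) (hGd i) hy, Prod.mk.injEq]
      constructor
      · rintro ⟨rfl, h⟩; exact ⟨v, h, rfl, rfl⟩
      · rintro ⟨v', h, rfl, rfl⟩; exact ⟨rfl, h⟩
    rw [h1, Finset.card_image_of_injective _ (fun a b h => congrArg Prod.snd h), gr_card_win]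
  · rintro ⟨i, y⟩ hy
    rw [hmem] at hy
    exact gr_push_dens w i (hwG i) (hGd i) hy (hlW _ y hy)
  · intro y hy σ
    exact gr_push_unif w (hwG 0) hM0 hy σ
  · have hT : ∀ i (h : i < l.length), ((l.map Prod.fst).map S.T).getD i 1 = S.T (l[i]).1 := by
      intro i h
      rw [List.getD_eq_getElem _ _ (by simpa using h)]
      simp
    have hmain := gr_main S Q M0 l.length (fun j => ((l.map Prod.fst).map S.T).getD j 1) Φ
      (indF F z)
      (stP l.length (envS S (l.map Prod.fst)) Φ⁻¹)⁻¹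
      (indF F (fun i => ((0 : Fin (l.length + 1)), z i))) π
      (fun s => gr_indF l.length (fun j => ((l.map Prod.fst).map S.T).getD j 1) s Φ z F)
      (fun y _ => rfl) l 0 (by omega)
      (fun i h => by rw [zero_add]; exact hT i h)
      (fun i h y _ => by
        show gr_push (l.length + 1) ((gr_lv l.length (0 + i + 1)) : ℕ)
          (lw ((gr_lv l.length (0 + i + 1)) : ℕ) y) = _
        rw [gr_lv_val (by omega), zero_add, hl1 i h])
      (fun _ => 1) rfl (fun _ _ => rfl)
    have h1 : gr_LA (l.length + 1) (fun _ => (1 : Perm V)) = 1 := rfl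
    rw [h1, mul_one] at hmain
    exact hmain
end ReprInd2

end Pool.Agent.PL
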