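import Pool.Agent.Lib.MP_6c3d62_pr.MU.Def

/-!
# MU, row A1: the exchange of two marked points
-/

set_option autoImplicit false
set_option linter.unusedSectionVars false

open Finset Equiv

namespace Pool.Agent.Stirring.MU

open Pool.Agent.Stirring Pool.Agent.Stirring.TN

theorem induced_swap {V ι : Type*} [DecidableEq V] [DecidableEq ι] {σ : Perm V} {z : ι → V}
    (hz : Function.Injective z) {τ : Perm ι} (i j : ι) (h : Induced σ z τ) :
    Induced (σ * swap (z i) (z j)) z (τ * swap i j) := by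
  intro a
  obtain ⟨n, h1, h2⟩ := h (swap i j a)
  have key : ∀ m ≤ n, ((σ * swap (z i) (z j)) ^ (m + 1)) (z a) = (σ ^ (m + 1)) (z (swap i j a)) := by
    intro m
    induction m with
    | zero =>
      intro _
      rw [zero_add, pow_one, pow_one, Perm.mul_apply, hz.swap_apply]
    | succ m ih =>
      intro hm
      have h3 := h2 m (by omega)
      rw [pow_succ' (σ * swap (z i) (z j)) (m + 1), Perm.mul_apply, ih (by omega), Perm.mul_apply,
        swap_apply_of_ne_of_ne (h3 i) (h3 j), pow_succ' σ (m + 1), Perm.mul_apply]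
  refine ⟨n, ?_, fun m hm b => ?_⟩
  · rw [key n le_rfl, h1, Perm.mul_apply]
  · rw [key m hm.le]
    exact h2 m hm b

section Rem

variable {X : Type*} [Fintype X] [DecidableEq X]

/-- The first returns to a subset of `S` are those of the first return map to `S`. -/
theorem fr_first {φ ψ : Perm X} {S : Finset X} (h : FR φ ψ S) {P : X → Prop}
    (hP : ∀ v, P v → v ∈ S) {v : X} (hv : v ∈ S) (n : ℕ) (h2 : ∀ m < n, ¬ P ((ψ ^ (m + 1)) v)) :
    (ψ ^ (n + 1)) v ∈ S ∧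
      ∃ N, (φ ^ (N + 1)) v = (ψ ^ (n + 1)) v ∧ ∀ m < N, ¬ P ((φ ^ (m + 1)) v) := by
  induction n with
  | zero =>
    obtain ⟨h4, N, h5, h6⟩ := h.on v hv
    refine ⟨by simpa using h4, N, by simpa using h5, fun m hm h7 => h6 m hm (hP _ h7)⟩
  | succ n ih =>
    obtain ⟨h4, N, h5, h6⟩ := ih fun m hm => h2 m (Nat.lt_succ_of_lt hm)
    obtain ⟨h7, M, h8, h9⟩ := h.on _ h4
    have e : (ψ ^ (n + 1 + 1)) v = ψ ((ψ ^ (n + 1)) v) := by
      rw [pow_succ' ψ (n + 1)]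
      rfl
    have e2 : ∀ m, (φ ^ (m + 1 + (N + 1))) v = (φ ^ (m + 1)) ((ψ ^ (n + 1)) v) := by
      intro m
      rw [pow_add, Perm.mul_apply, h5]
    refine ⟨by rw [e]; exact h7, M + 1 + N, ?_, fun m hm => ?_⟩
    · rw [show M + 1 + N + 1 = M + 1 + (N + 1) by omega, e2, h8, e]
    · rcases lt_trichotomy m N with h10 | h10 | h10
      · exact h6 m h10
      · rw [h10, h5]
        exact h2 n (Nat.lt_succ_self n)
      · obtain ⟨i, rfl⟩ : ∃ i, m = i + (N + 1) := ⟨m - (N + 1), by omega⟩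
        rw [show i + (N + 1) + 1 = i + 1 + (N + 1) by omega, e2]
        exact fun h11 => h9 i (by omega) (hP _ h11)

/-- The first return is unique. -/
theorem first_unique {φ : Perm X} {P : X → Prop} {v w w' : X} {n n' : ℕ}
    (h1 : (φ ^ (n + 1)) v = w) (hw : P w) (h2 : ∀ m < n, ¬ P ((φ ^ (m + 1)) v))
    (h1' : (φ ^ (n' + 1)) v = w') (hw' : P w') (h2' : ∀ m < n', ¬ P ((φ ^ (m + 1)) v)) :
    w = w' := by
  rcases lt_trichotomy n n' with hlt | heq | hlt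
  · exact absurd (h1 ▸ hw) (h2' n hlt)
  · rw [← h1, ← h1', heq]
  · exact absurd (h1' ▸ hw') (h2 n' hlt)

theorem induced_fr {φ ψ : Perm X} {S : Finset X} (h : FR φ ψ S) {ι : Type*} {z : ι → X}
    (hz : ∀ i, z i ∈ S) (τ : Perm ι) : Induced ψ z τ ↔ Induced φ z τ := by
  classical
  have hP : ∀ v, (∃ j, z j = v) → v ∈ S := by
    rintro v ⟨j, rfl⟩
    exact hz j
  constructor
  · intro h' i
    obtain ⟨n, h1, h2⟩ := h' i
    obtain ⟨-, N, h3, h4⟩ := fr_first h (P := fun v => ∃ j, z j = v) hP (hz i) n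
      (fun m hm => fun ⟨j, hj⟩ => h2 m hm j hj.symm)
    exact ⟨N, h3.trans h1, fun m hm j hj => h4 m hm ⟨j, hj.symm⟩⟩
  · intro h' i
    obtain ⟨N, h1, h2⟩ := h' i
    have hex : ∃ n, ∃ j, z j = (ψ ^ (n + 1)) (z i) := by
      refine ⟨orderOf ψ - 1, i, ?_⟩
      rw [Nat.sub_add_cancel (orderOf_pos ψ), pow_orderOf_eq_one]
      rfl
    have h3 := Nat.find_spec hex
    have h4 : ∀ m < Nat.find hex, ¬ ∃ j, z j = (ψ ^ (m + 1)) (z i) :=
      fun m hm => Nat.find_min hex hm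
    obtain ⟨-, N', h5, h6⟩ := fr_first h (P := fun v => ∃ j, z j = v) hP (hz i) (Nat.find hex) h4
    have h7 := first_unique (φ := φ) (P := fun v => ∃ j, z j = v) h5 h3 h6 h1 ⟨τ i, rfl⟩
      (fun m hm => fun ⟨j, hj⟩ => h2 m hm j hj.symm)
    exact ⟨Nat.find hex, h7, fun m hm j hj => h4 m hm ⟨j, hj.symm⟩⟩

end Rem

theorem induced_rem {X ι : Type*} [Fintype X] [DecidableEq X] {σ : Perm X} {z : ι → X} {a : X}
    (ha : ∀ i, z i ≠ a) (τ : Perm ι) : Induced (rem σ a) z τ ↔ Induced σ z τ :=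
  induced_fr (fr_rem σ a) (fun i => by simpa using ha i) τ

section Move

variable {X : Type*} [Fintype X] [DecidableEq X]

/-- The two cuts differ by the point which is removed. -/
theorem rem_move (σ : Perm X) {p r : X} (h1 : p ≠ r) (h2 : σ p ≠ r) :
    rem (σ * swap p r) (σ p) = rem (σ * swap (σ p) r) (σ p) := by
  by_cases h0 : σ p = p
  · rw [h0]
  set q := σ p with hq
  have e1 : (σ * swap p r)⁻¹ q = r := by
    rw [Perm.inv_eq_iff_eq, Perm.mul_apply, swap_apply_right]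
  have e2 : (σ * swap q r)⁻¹ q = p := by
    rw [Perm.inv_eq_iff_eq, Perm.mul_apply,
      swap_apply_of_ne_of_ne (fun h => h0 h.symm) h1]
  unfold rem
  rw [e1, e2, mul_assoc, mul_assoc]
  congr 1
  ext a
  simp only [Perm.mul_apply]
  by_cases ha : a = p
  · subst ha
    rw [swap_apply_of_ne_of_ne h1 (fun h => h0 h.symm), swap_apply_left,
      swap_apply_left, swap_apply_left]
  by_cases hb : a = q
  · rw [hb, swap_apply_right, swap_apply_right, swap_apply_right,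
      swap_apply_of_ne_of_ne (fun h => h0 h.symm) h1]
  by_cases hc : a = r
  · subst hc
    rw [swap_apply_left, swap_apply_of_ne_of_ne h0 h2,
      swap_apply_of_ne_of_ne ha hb, swap_apply_right]
  · rw [swap_apply_of_ne_of_ne hc hb, swap_apply_of_ne_of_ne ha hc,
      swap_apply_of_ne_of_ne ha hb, swap_apply_of_ne_of_ne hb hc]

variable {ι : Type*} {z : ι → X}

theorem ind_move_one (σ : Perm X) {p r : X} (h1 : p ≠ r) (h2 : σ p ≠ r)
    (hz : ∀ b, z b ≠ σ p) (τ : Perm ι) :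
    Induced (σ * swap p r) z τ ↔ Induced (σ * swap (σ p) r) z τ := by
  rw [← induced_rem (σ := σ * swap p r) hz τ, rem_move σ h1 h2,
    induced_rem (σ := σ * swap (σ p) r) hz τ]

theorem ind_move_path (σ : Perm X) {p r : X} (n : ℕ) (h1 : ∀ m ≤ n, (σ ^ m) p ≠ r)
    (hz : ∀ m < n, ∀ b, z b ≠ (σ ^ (m + 1)) p) (τ : Perm ι) :
    Induced (σ * swap p r) z τ ↔ Induced (σ * swap ((σ ^ n) p) r) z τ := by
  induction n with
  | zero => rfl
  | succ n ih =>
    rw [ih (fun m hm => h1 m (Nat.le_succ_of_le hm)) (fun m hm => hz m (Nat.lt_succ_of_lt hm))]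
    have e : (σ ^ (n + 1)) p = σ ((σ ^ n) p) := by
      rw [pow_succ']
      rfl
    rw [ind_move_one σ (h1 n (Nat.le_succ n)) (by rw [← e]; exact h1 (n + 1) le_rfl)
      (by rw [← e]; exact hz n (Nat.lt_succ_self n)) τ, e]

theorem ind_move_both (σ : Perm X) {x y : X} (n m : ℕ)
    (h1 : ∀ i ≤ n, ∀ j ≤ m, (σ ^ i) x ≠ (σ ^ j) y)
    (hz : ∀ i < n, ∀ b, z b ≠ (σ ^ (i + 1)) x) (hz' : ∀ j < m, ∀ b, z b ≠ (σ ^ (j + 1)) y)
    (τ : Perm ι) :
    Induced (σ * swap x y) z τ ↔ Induced (σ * swap ((σ ^ n) x) ((σ ^ m) y)) z τ := by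
  have e0 : (σ ^ 0) y = y := rfl
  rw [ind_move_path σ n (r := y) (fun i hi => by
    have := h1 i hi 0 (Nat.zero_le _)
    rwa [e0] at this) hz τ, swap_comm, ind_move_path σ m (fun j hj => (h1 n le_rfl j hj).symm)
    hz' τ, swap_comm]

end Move

/-- As `TN.sameCycle_th`. -/
theorem induced_th {X : Type*} [Fintype X] [DecidableEq X] {ω σ : Perm X} {S1 S2 : Finset X}
    {ι : Type*} {z : ι → X} {x y : X} (hxy : x ≠ y) (hx : ∃ i, z i = x) (hy : ∃ j, z j = y)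
    (h : ∀ b, ¬ Pass ω σ S1 S2 x (z b) ∧ ¬ Pass ω σ S1 S2 y (z b)) (τ : Perm ι) :
    Induced (ω * σ * swap x y) z τ ↔ Induced (ω * th ω (cr ω S1 S2 S2 S1) x y σ) z τ := by
  obtain ⟨i, rfl⟩ := hx
  obtain ⟨j, rfl⟩ := hy
  obtain ⟨n, h1, h2⟩ := exists_first (h i).1
  obtain ⟨m, h3, h4⟩ := exists_first (h j).2
  have h5 := orb_ne hxy (h j).1 (h i).2 h2 h4
  have h6 : ((ω * σ) ^ n) (z i) ≠ ((ω * σ) ^ m) (z j) := h5 n le_rfl m le_rfl
  have h7 : th ω (cr ω S1 S2 S2 S1) (z i) (z j) σ =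
      swap (out ω σ (z i) n) (out ω σ (z j) m) * σ := by
    refine th_of ?_ ⟨n, rfl, h1, h2⟩ ⟨m, rfl, h3, h4⟩
    rw [out_eq, out_eq]
    exact fun h => h6 (σ.injective h)
  have h8 : ω * th ω (cr ω S1 S2 S2 S1) (z i) (z j) σ =
      ω * σ * swap (((ω * σ) ^ n) (z i)) (((ω * σ) ^ m) (z j)) := by
    rw [h7, out_eq, out_eq, mul_assoc, Equiv.mul_swap_eq_swap_mul]
  have key : ∀ (x : X) (n : ℕ), (∀ j < n, out ω σ x j ∉ cr ω S1 S2 S2 S1) →
      (∀ b, ¬ Pass ω σ S1 S2 x (z b)) → ∀ i < n, ∀ b, z b ≠ ((ω * σ) ^ (i + 1)) x := by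
    intro x n hn hv i hi b he
    exact hv b (pass_of_eq he.symm fun k hk => hn k (by omega))
  rw [h8]
  exact ind_move_both (ω * σ) n m h5 (key _ n h2 fun b => (h b).1) (key _ m h4 fun b => (h b).2) τ

/-- `TN.two_node` for two functions which agree unless a path meets a marked point. -/
theorem two_node_gen {X : Type*} [Fintype X] [DecidableEq X] {ι : Type*} [Fintype ι]
    {w : Perm X → ℝ} {S1 S2 : Finset X}
    (hw : Law w S1 S2) (hd : Disjoint S1 S2) {ω : Perm X} {A : ℝ} (hA : 0 < A)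
    (hA1 : A ≤ (cr ω S1 S2 S1 S2).card) (hA2 : A ≤ (cr ω S1 S2 S2 S1).card) {z : ι → X} {i j : ι}
    (hi : z i ∈ S1) (hj : z j ∈ S2) {F : Perm X → ℝ} (hF0 : ∀ η, 0 ≤ F η)
    (hF1 : ∀ η, F η ≤ 1)
    (hF : ∀ σ : Perm X,
      (∀ b, ¬ Pass ω σ S1 S2 (z i) (z b) ∧ ¬ Pass ω σ S1 S2 (z j) (z b)) →
      F (ω * σ * swap (z i) (z j)) = F (ω * th ω (cr ω S1 S2 S2 S1) (z i) (z j) σ)) :
    |∑ σ, w σ * F (ω * σ * swap (z i) (z j)) - ∑ σ, w σ * F (ω * σ)| ≤
      2 * Fintype.card ι / A := by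
  classical
  set K := cr ω S1 S2 S2 S1 with hK
  have hKinv : Inv w K := hw.inv2.mono (cr_subset _ _ _ _ _)
  rw [← sum_th hKinv ω (z i) (z j) (fun σ => F (ω * σ)), ← Finset.sum_sub_distrib]
  set B : Perm X → Prop := fun σ => ∃ b ∈ (Finset.univ : Finset ι),
    (Pass ω σ S1 S2 (z i) (z b) ∨ Pass ω σ S1 S2 (z j) (z b)) with hB
  have h1 : ∀ σ, |w σ * F (ω * σ * swap (z i) (z j)) -
      w σ * F (ω * th ω K (z i) (z j) σ)| ≤ if B σ then w σ else 0 := by
    intro σ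
    rw [← mul_sub, abs_mul, abs_of_nonneg (hw.nonneg σ)]
    by_cases hBσ : B σ
    · rw [if_pos hBσ]
      refine mul_le_of_le_one_right (hw.nonneg σ) ?_
      rw [abs_le]
      have e1 := hF0 (ω * σ * swap (z i) (z j))
      have e2 := hF1 (ω * σ * swap (z i) (z j))
      have e3 := hF0 (ω * th ω K (z i) (z j) σ)
      have e4 := hF1 (ω * th ω K (z i) (z j) σ)
      constructor <;> linarith
    · rw [if_neg hBσ, hF σ (fun c => ⟨fun h => ?_, fun h => ?_⟩), sub_self, abs_zero, mul_zero]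
      · exact hBσ ⟨c, Finset.mem_univ c, Or.inl h⟩
      · exact hBσ ⟨c, Finset.mem_univ c, Or.inr h⟩
  refine (Finset.abs_sum_le_sum_abs _ _).trans ((Finset.sum_le_sum fun σ _ => h1 σ).trans ?_)
  have h2 : (∑ σ, if B σ then w σ else 0) = pr w B := by
    unfold pr
    refine Finset.sum_congr rfl fun σ _ => ?_
    by_cases hBσ : B σ
    · rw [if_pos hBσ, if_pos hBσ]
    · rw [if_neg hBσ, if_neg hBσ]
  rw [h2]
  have h3 : ∀ b, pr w (fun σ => Pass ω σ S1 S2 (z i) (z b) ∨ Pass ω σ S1 S2 (z j) (z b)) ≤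
      2 / A := by
    intro b
    have e1 := pr_pass_le hw hd hA1 hA2 (Finset.mem_union_left S2 hi) (z b)
    have e2 := pr_pass_le hw hd hA1 hA2 (Finset.mem_union_right S1 hj) (z b)
    have e3 := pr_or_le hw.nonneg (fun σ => Pass ω σ S1 S2 (z i) (z b))
      (fun σ => Pass ω σ S1 S2 (z j) (z b))
    rw [le_div_iff₀ hA]
    nlinarith
  refine (pr_exists_le hw.nonneg Finset.univ _).trans ((Finset.sum_le_sum fun b _ => h3 b).trans ?_)
  rw [Finset.sum_const, Finset.card_univ, nsmul_eq_mul]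
  apply le_of_eq
  ring

/-- As `TN.two_node`. -/
theorem two_node_ind {X : Type*} [Fintype X] [DecidableEq X] {ι : Type*} [Fintype ι]
    [DecidableEq ι] {w : Perm X → ℝ} {S1 S2 : Finset X}
    (hw : Law w S1 S2) (hd : Disjoint S1 S2) {ω : Perm X} {A : ℝ} (hA : 0 < A)
    (hA1 : A ≤ (cr ω S1 S2 S1 S2).card) (hA2 : A ≤ (cr ω S1 S2 S2 S1).card) {z : ι → X}
    (hz : Function.Injective z) {i j : ι} (hi : z i ∈ S1) (hj : z j ∈ S2) {F : Perm ι → ℝ}
    (hF0 : ∀ τ, 0 ≤ F τ) (hF1 : ∀ τ, F τ ≤ 1) :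
    |∑ σ, w σ * indF F z (ω * σ * swap (z i) (z j)) - ∑ σ, w σ * indF F z (ω * σ)| ≤
      2 * Fintype.card ι / A := by
  have hxy : z i ≠ z j := fun h => Finset.disjoint_left.mp hd hi (h ▸ hj)
  refine two_node_gen hw hd hA hA1 hA2 hi hj (F := indF F z) (indF_nonneg hF0 z)
    (indF_le_one hF1 hz) fun σ h => ?_
  exact indF_congr fun τ => induced_th hxy ⟨i, rfl⟩ ⟨j, rfl⟩ h τ

/-- As `TN.two_node_avg`. -/
theorem two_node_avg_ind {X : Type*} [Fintype X] [DecidableEq X] {ι : Type*} [Fintype ι]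
    [DecidableEq ι] {S1 S2 : Finset X} (hd : Disjoint S1 S2)
    {ω ν : Perm X} (hν : FR ω ν (S1 ∪ S2)) {A : ℝ} (hA : 0 < A) (hA1 : A ≤ nstr ν S1 S2)
    {z : ι → X} (hz : Function.Injective z) {i j : ι} (hi : z i ∈ S1) (hj : z j ∈ S2)
    {F : Perm ι → ℝ} (hF0 : ∀ τ, 0 ≤ F τ) (hF1 : ∀ τ, F τ ≤ 1) :
    |(∑ σ1 ∈ permsOn S1, ∑ σ2 ∈ permsOn S2,
        (indF F z (ω * σ1 * σ2 * swap (z i) (z j)) - indF F z (ω * σ1 * σ2))) /
      ((S1.card.factorial : ℝ) * (S2.card.factorial : ℝ))| ≤ 2 * Fintype.card ι / A := by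
  have h1 := two_node_ind (law_w2 hd) hd (ω := ω) hA
    (by rw [hν.card_cr Finset.subset_union_left Finset.subset_union_right]; exact hA1)
    (by
      rw [hν.card_cr Finset.subset_union_right Finset.subset_union_left,
        ← nstr_symm hd fun c hc => (hν.on c hc).1]
      exact hA1) hz hi hj hF0 hF1
  rw [sum_w2 S1 S2 (fun σ => indF F z (ω * σ * swap (z i) (z j))),
    sum_w2 S1 S2 (fun σ => indF F z (ω * σ)),
    ← sub_div, ← Finset.sum_sub_distrib] at h1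
  simp only [← Finset.sum_sub_distrib, ← mul_assoc] at h1
  exact h1

end Pool.Agent.Stirring.MU
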