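import Pool.Agent.Lib.MP_6c3d62_pr.Mg.G048
import Pool.Agent.Lib.MP_6c3d62_pr.MU.Mv
import Pool.Agent.Lib.MP_6c3d62_pr.Mg.G074

/-! MU, row I: the induced permutation of polynomially many points at a fixed time. -/

set_option autoImplicit false
set_option linter.unusedSectionVars false

open Finset Equiv Filter

namespace Pool.Agent.Stirring.MU

open Pool.Agent.Stirring Pool.Agent.PL Pool.Agent.Stirring.TN Pool.Agent.Stirring.LC

/-- Eventual inequalities. -/
theorem top_num (m s₀ : ℕ) : ∀ᶠ y : ℝ in atTop,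
    4 ≤ y ∧ (s₀ : ℝ) + 1 + (2 * (Real.exp y + 1) + 4 * y ^ m) ≤ Real.exp (y ^ 8) / 4 := by
  have h1 := Real.tendsto_pow_mul_exp_neg_atTop_nhds_zero m
  have h2 : ∀ᶠ y : ℝ in atTop, y ^ m * Real.exp (-y) < 1 := h1.eventually_lt_const one_pos
  have h4 : ∀ᶠ y : ℝ in atTop, ((s₀ : ℝ) + 28) ≤ Real.exp y :=
    Real.tendsto_exp_atTop.eventually_ge_atTop _
  filter_upwards [h2, h4, eventually_ge_atTop 4] with y g2 g4 g5
  refine ⟨g5, ?_⟩
  have hE : 0 < Real.exp y := Real.exp_pos y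
  have e1 : y ^ m ≤ Real.exp y := by
    rw [Real.exp_neg, ← div_eq_mul_inv, div_lt_one hE] at g2
    exact g2.le
  have e2 : 2 * y ≤ y ^ 8 := by
    have h : (2 : ℝ) ≤ y ^ 7 := by
      calc (2 : ℝ) ≤ y := by linarith
        _ = y ^ 1 := (pow_one y).symm
        _ ≤ y ^ 7 := pow_le_pow_right₀ (by linarith) (by norm_num)
    have : y ^ 8 = y ^ 7 * y := by ring
    rw [this]
    exact mul_le_mul_of_nonneg_right h (by linarith)
  have e3 : Real.exp y * Real.exp y ≤ Real.exp (y ^ 8) := by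
    rw [← Real.exp_add]
    refine Real.exp_le_exp.2 ?_
    linarith
  have hs : (0 : ℝ) ≤ s₀ := by positivity
  nlinarith

/-- The target. -/
theorem local_uniform (d : ℕ) (hd : 2 ≤ d) : ∃ a c : ℝ, 0 < a ∧ 0 < c ∧ ∃ t₀ : ℝ, ∀ t : ℝ,
    t₀ ≤ t → ∀ (L : ℕ) [NeZero L], Real.exp (t ^ c) ≤ L → ∀ k : ℕ, (k : ℝ) ≤ t ^ a →
      ∀ z : Fin k → (Fin d → ZMod L), Function.Injective z →
      (∀ i j, ∃ u : Fin d → ℤ, z j = z i + red d L u ∧ ∑ m, |(u m : ℝ)| ≤ Real.exp (t ^ a)) →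
      ∀ F : Perm (Fin k) → ℝ, (∀ τ, 0 ≤ F τ) → (∀ τ, F τ ≤ 1) →
        |expect d L t (indF F z) - (∑ τ, F τ) / (k.factorial : ℝ)| ≤ t ^ (-a) := by
  classical
  obtain ⟨A, B1, c1, hc1, hev⟩ := env_good_local d hd
  obtain ⟨K, hK, s₀, hfar⟩ := far_ind d hd hc1 hev
  set E := B1 + 4 * (A * (d + 1) + 1) with hE
  set A' := 8 * (A + 1) with hA'
  set q := A' + 4 + 4 * E with hq
  set n := 2 * q + 1 with hn
  set S : ℝ := Real.sqrt (d * (5 + n)) with hS
  have hS0 : 0 ≤ S := Real.sqrt_nonneg _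
  obtain ⟨y₀, hy₀⟩ := eventually_atTop.1 (((top_num (A' + 1) s₀).and
    (eventually_ge_atTop (240 * S))).and (eventually_ge_atTop (16 * K)))
  have hnne : n ≠ 0 := by omega
  have hnpos : (0 : ℝ) < n := by exact_mod_cast Nat.pos_of_ne_zero hnne
  refine ⟨(n : ℝ)⁻¹, 8 * (n : ℝ)⁻¹, by positivity, by positivity, (max y₀ 1) ^ n, ?_⟩
  intro t ht L _ hL k hk z hz hdiam F hF0 hF1
  set y : ℝ := t ^ ((n : ℝ)⁻¹) with hy
  have ht0 : 0 ≤ t := le_trans (by positivity) ht
  have hyt : y ^ n = t := Real.rpow_inv_natCast_pow ht0 hnne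
  have hypos : 0 ≤ y := Real.rpow_nonneg ht0 _
  have hyy : max y₀ 1 ≤ y := by
    rw [← hyt] at ht
    exact le_of_pow_le_pow_left₀ hnne hypos ht
  obtain ⟨⟨⟨hy4, hnum⟩, hQ1⟩, hQ2⟩ := hy₀ y ((le_max_left _ _).trans hyy)
  have hy1 : 1 ≤ y := by linarith
  have hy0 : 0 < y := by linarith
  have ht1 : 1 ≤ t := by rw [← hyt]; exact one_le_pow₀ hy1
  have htc : t ^ (8 * (n : ℝ)⁻¹) = y ^ 8 := by
    rw [hy, mul_comm, Real.rpow_mul ht0]
    exact Real.rpow_natCast _ 8
  have hta : t ^ (-(n : ℝ)⁻¹) = 1 / y := by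
    rw [Real.rpow_neg ht0, one_div]
  rw [htc] at hL
  rw [hta]
  -- the box
  set s : ℕ := ⌊Real.exp (y ^ 8) / 4⌋₊ with hs
  have hexp0 : (0 : ℝ) ≤ Real.exp (y ^ 8) / 4 := by positivity
  have hsle : (s : ℝ) ≤ Real.exp (y ^ 8) / 4 := Nat.floor_le hexp0
  have hsge : Real.exp (y ^ 8) / 4 < s + 1 := Nat.lt_floor_add_one _
  have hm0 : (0 : ℝ) ≤ y ^ (A' + 1) := by positivity
  have hey := Real.exp_pos y
  have hs1 : (s₀ : ℝ) < s := by linarith
  have hs1' : s₀ ≤ s := by exact_mod_cast hs1.le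
  have hspos : (0 : ℝ) < s := lt_of_le_of_lt (by positivity) hs1
  have hspos' : 1 ≤ s := by exact_mod_cast hspos
  have hLs4 : 4 * s ≤ L := by
    have : (4 * s : ℝ) ≤ L := by linarith
    exact_mod_cast this
  have hlogs : Real.log s ≤ y ^ 8 := by
    rw [← Real.log_exp (y ^ 8)]
    refine Real.log_le_log hspos (hsle.trans ?_)
    have := Real.exp_pos (y ^ 8)
    linarith
  have hlogs0 : 0 ≤ Real.log s := Real.log_nonneg (by exact_mod_cast hspos')
  have hy8 : (16 : ℝ) ≤ y ^ 8 := by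
    calc (16 : ℝ) = 4 ^ 2 := by norm_num
      _ ≤ y ^ 2 := pow_le_pow_left₀ (by norm_num) hy4 _
      _ ≤ y ^ 8 := pow_le_pow_right₀ hy1 (by norm_num)
  have hlogs2 : y ^ 8 / 2 ≤ Real.log s := by
    rw [Real.le_log_iff_exp_le hspos]
    have h1 : Real.exp (y ^ 8) = Real.exp (y ^ 8 / 2) * Real.exp (y ^ 8 / 2) := by
      rw [← Real.exp_add]; congr 1; ring
    have h2 : y ^ 8 / 2 + 1 ≤ Real.exp (y ^ 8 / 2) := Real.add_one_le_exp _
    rw [h1] at hsge
    nlinarith
  have hlogsE : Real.log s ^ E ≤ t := by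
    calc Real.log s ^ E ≤ (y ^ 8) ^ E := pow_le_pow_left₀ hlogs0 hlogs _
      _ = y ^ (8 * E) := by rw [pow_mul]
      _ ≤ y ^ n := pow_le_pow_right₀ hy1 (by omega)
      _ = t := hyt
  have hfarerr : K * ((k : ℝ) + 1) ^ 2 / Real.log s ≤ 1 / (2 * y) := by
    have h1 : ((k : ℝ) + 1) ^ 2 ≤ (2 * y) ^ 2 := by
      refine pow_le_pow_left₀ (by positivity) ?_ _
      linarith
    have hlpos : 0 < Real.log s := lt_of_lt_of_le (by positivity) hlogs2
    rw [div_le_div_iff₀ hlpos (by positivity)]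
    have h2 : K * ((k : ℝ) + 1) ^ 2 * (2 * y) ≤ K * (2 * y) ^ 2 * (2 * y) := by
      refine mul_le_mul_of_nonneg_right (mul_le_mul_of_nonneg_left h1 (by linarith)) (by positivity)
    have h3 : K * (2 * y) ^ 2 * (2 * y) = (8 * K) * y ^ 3 := by ring
    have h4 : (8 * K) * y ^ 3 ≤ (y / 2) * y ^ 3 :=
      mul_le_mul_of_nonneg_right (by linarith) (by positivity)
    have h5 : (y / 2) * y ^ 3 = y ^ 4 / 2 := by ring
    have h6 : y ^ 4 ≤ y ^ 8 := pow_le_pow_right₀ hy1 (by norm_num)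
    linarith
  rcases Nat.eq_zero_or_pos k with hk0 | hk1
  · subst hk0
    have h1 := hfar s hs1' L hLs4 t hlogsE 0 z (fun i => i.elim0) (fun a => a.elim0) F hF0 hF1
    refine h1.trans (hfarerr.trans ?_)
    exact div_le_div_of_nonneg_left (by norm_num) hy0 (by linarith)
  -- the distance of the moved points
  set B : ℕ := ⌈y ^ A'⌉₊ with hB
  have hyA : (1 : ℝ) ≤ y ^ A' := one_le_pow₀ hy1
  have hB1 : 1 ≤ B := Nat.one_le_ceil_iff.2 (by linarith)
  have hBge : y ^ A' ≤ B := Nat.le_ceil _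
  have hBle : (B : ℝ) ≤ 2 * y ^ A' := by
    have := (Nat.ceil_lt_add_one (by linarith : (0 : ℝ) ≤ y ^ A')).le
    linarith
  have hBk : 2 * (B : ℝ) * k ≤ 4 * y ^ (A' + 1) := by
    calc 2 * (B : ℝ) * k ≤ 2 * (2 * y ^ A') * y := by
          refine mul_le_mul (mul_le_mul_of_nonneg_left hBle (by norm_num)) hk (by positivity)
            (by positivity)
      _ = 4 * y ^ (A' + 1) := by rw [pow_succ]; ring
  set R : ℕ := ⌈Real.exp y⌉₊ with hR
  have hRr : Real.exp y ≤ R := Nat.le_ceil _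
  have hRle : (R : ℝ) ≤ Real.exp y + 1 := (Nat.ceil_lt_add_one hey.le).le
  have hfit : 2 * R + 2 * B * k < s := by
    have h3 : (2 * R + 2 * B * k : ℝ) < s := by
      have : (0 : ℝ) ≤ s₀ := by positivity
      linarith
    exact_mod_cast h3
  have hBL : 2 * B * k ≤ L := by omega
  set i0 : Fin d := ⟨0, by omega⟩ with hi0
  obtain ⟨z', hz'1, hz'2, hz'3, hz'4⟩ := move_ind (d := d) (by omega) (L := L) (by omega) ht1 hB1
    hBL i0 hz
  have hcost : 20 * (B : ℝ) * (k : ℝ) ^ 2 * LC.eta d t ≤ 1 / (2 * y) := by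
    have hyq : (0 : ℝ) < y ^ q := by positivity
    have heta : LC.eta d t ≤ 3 * (S / y ^ q) := by
      unfold LC.eta
      refine mul_le_mul_of_nonneg_left ?_ (by norm_num)
      have h1 : Real.log t ≤ n * y := by
        rw [← hyt, Real.log_pow]
        exact mul_le_mul_of_nonneg_left (Real.log_le_self hypos) hnpos.le
      have h2 : (d : ℝ) * (5 + Real.log t) / t ≤ d * (5 + n) / (y ^ q) ^ 2 := by
        have h3 : t = (y ^ q) ^ 2 * y := by rw [← hyt, hn, pow_succ, ← pow_mul]; ring_nf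
        have h4 : 5 + Real.log t ≤ (5 + n) * y := by nlinarith
        rw [div_le_div_iff₀ (by linarith) (by positivity)]
        have hd0 : (0 : ℝ) ≤ d := by positivity
        calc (d : ℝ) * (5 + Real.log t) * (y ^ q) ^ 2
            ≤ d * ((5 + n) * y) * (y ^ q) ^ 2 :=
              mul_le_mul_of_nonneg_right (mul_le_mul_of_nonneg_left h4 hd0) (by positivity)
          _ = d * (5 + n) * ((y ^ q) ^ 2 * y) := by ring
          _ = d * (5 + n) * t := by rw [← h3]
      calc Real.sqrt ((d : ℝ) * (5 + Real.log t) / t)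
          ≤ Real.sqrt (d * (5 + n) / (y ^ q) ^ 2) := Real.sqrt_le_sqrt h2
        _ = S / y ^ q := by
          rw [Real.sqrt_div (by positivity), Real.sqrt_sq hyq.le]
    have heta0 : 0 ≤ LC.eta d t := LC.eta_nonneg d t
    have hk2 : (k : ℝ) ^ 2 ≤ y ^ 2 := pow_le_pow_left₀ (by positivity) hk _
    have h5 : 20 * (B : ℝ) * (k : ℝ) ^ 2 * LC.eta d t ≤ 20 * (2 * y ^ A') * y ^ 2 * (3 * (S / y ^ q)) :=
      mul_le_mul (mul_le_mul (mul_le_mul_of_nonneg_left hBle (by norm_num)) hk2 (by positivity)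
        (by positivity)) heta heta0 (by positivity)
    have h6 : y ^ A' * y ^ 2 * y ^ 2 ≤ y ^ q := by
      rw [← pow_add, ← pow_add]
      exact pow_le_pow_right₀ hy1 (by omega)
    have h7 : y ^ A' * y ^ 2 / y ^ q ≤ 1 / y ^ 2 := by
      rw [div_le_div_iff₀ hyq (by positivity), one_mul]
      exact h6
    have h8 : 20 * (2 * y ^ A') * y ^ 2 * (3 * (S / y ^ q)) = 120 * S * (y ^ A' * y ^ 2 / y ^ q) := by
      ring
    have h9 : 120 * S * (y ^ A' * y ^ 2 / y ^ q) ≤ (y / 2) * (1 / y ^ 2) :=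
      mul_le_mul (by linarith) h7 (by positivity) (by positivity)
    have h10 : (y / 2) * (1 / y ^ 2) = 1 / (2 * y) := by
      field_simp
    linarith
  have hmain : |expect d L t (indF F z') - (∑ τ, F τ) / (k.factorial : ℝ)| ≤ 1 / (2 * y) := by
    set j0 : Fin k := ⟨0, hk1⟩ with hj0
    set a : Fin d → ZMod L := (fun _ => ((R : ℕ) : ZMod L)) - z j0 with ha
    rw [← indF_add t a z' F]
    refine (hfar s hs1' L hLs4 t hlogsE k (fun i => z' i + a) ?_ ?_ F hF0 hF1).trans hfarerr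
    · intro i l
      obtain ⟨w, hn1, hn2⟩ := hz'2 i
      obtain ⟨u, hu1, hu2⟩ := hdiam j0 i
      have hul : |(u l : ℝ)| ≤ R :=
        (Finset.single_le_sum (f := fun m => |(u m : ℝ)|) (fun _ _ => abs_nonneg _)
          (Finset.mem_univ l)).trans (hu2.trans hRr)
      have hul' : |u l| ≤ (R : ℤ) := by exact_mod_cast hul
      have hul2 := abs_le.1 hul'
      set nl : ℤ := (Pi.single i0 (w : ℤ) : Fin d → ℤ) l with hnl
      have hnl0 : 0 ≤ nl ∧ nl ≤ w := by
        rw [hnl]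
        by_cases h : l = i0
        · subst h; simp
        · rw [Pi.single_eq_of_ne h]; simp
      have hcoord : (z' i + a) l - (0 : Fin d → ZMod L) l =
          (((u l + nl + R).toNat : ℕ) : ZMod L) := by
        have h1 : (((u l + nl + R).toNat : ℕ) : ZMod L) = ((u l + nl + R : ℤ) : ZMod L) := by
          rw [← Int.cast_natCast, Int.toNat_of_nonneg (by linarith [hul2.1, hnl0.1])]
        rw [h1, hn2, hu1, ha]
        simp only [Pi.add_apply, Pi.sub_apply, Pi.zero_apply, sub_zero, red]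
        push_cast
        ring
      show ((z' i + a) l - (0 : Fin d → ZMod L) l).val < s
      have hn1' : (w : ℤ) ≤ 2 * B * k := by exact_mod_cast hn1
      have hfit' : (2 * R + 2 * B * k : ℤ) < s := by exact_mod_cast hfit
      rw [hcoord, ZMod.val_natCast]
      refine lt_of_le_of_lt (Nat.mod_le _ _) ?_
      have h5 : (u l + nl + R).toNat ≤ 2 * R + 2 * B * k := by
        rw [Int.toNat_le]
        push_cast
        linarith [hul2.2, hnl0.2]
      omega
    · intro i j hij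
      have h1 : z' i + a - (z' j + a) = z' i - z' j := by abel
      calc Real.log s ^ (A + 1) ≤ (y ^ 8) ^ (A + 1) := pow_le_pow_left₀ hlogs0 hlogs _
        _ = y ^ A' := by rw [← pow_mul]
        _ ≤ B := hBge
        _ ≤ (QK.nrm (z' i + a - (z' j + a)) : ℝ) := by
          rw [h1]
          exact_mod_cast hz'3 i j hij
  have h8 := abs_sub_le (expect d L t (indF F z)) (expect d L t (indF F z'))
    ((∑ τ, F τ) / (k.factorial : ℝ))
  have h9 := hz'4 F hF0 hF1
  have h10 : 1 / (2 * y) + 1 / (2 * y) = 1 / y := by field_simp; norm_num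
  linarith

end Pool.Agent.Stirring.MU
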